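import Mathlib
import Pool.Agent.Helper23.KS.Model
import Pool.Agent.Helper1.BalanceDefs

set_option autoImplicit false

/-!
# Linear extensions and random order preserving maps, part 1

The bijection between injective order preserving maps `Fin n → {0, …, N - 1}` and pairs
(linear extension, set of `n` values), the tie bound, and the transfer lemma.
-/

namespace Pool.Agent.Helper17.KSLink

open Finset Pool.Agent.Helper23.KS Pool.Agent.Helper1.Balance

variable {n : ℕ}

open Classical in
/-- The linear extensions. -/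
noncomputable def LEf (r : Fin n → Fin n → Prop) : Finset (Equiv.Perm (Fin n)) :=
  univ.filter (fun σ => ∀ a b, r a b → σ a ≤ σ b)

theorem mem_LEf {r : Fin n → Fin n → Prop} {σ : Equiv.Perm (Fin n)} :
    σ ∈ LEf r ↔ ∀ a b, r a b → σ a ≤ σ b := by
  classical
  simp [LEf]

theorem mem_Om {r : Fin n → Fin n → Prop} {N : ℕ} {f : Fin n → ℤ} :
    f ∈ Om r N ↔ (∀ q, 0 ≤ f q ∧ f q < N) ∧ ∀ i j, r i j → f i ≤ f j := by
  classical
  simp [Om, Fintype.mem_piFinset]

open Classical in
/-- The injective order preserving maps. -/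
noncomputable def OmI (r : Fin n → Fin n → Prop) (N : ℕ) : Finset (Fin n → ℤ) :=
  (Om r N).filter Function.Injective

theorem mem_OmI {r : Fin n → Fin n → Prop} {N : ℕ} {f : Fin n → ℤ} :
    f ∈ OmI r N ↔ f ∈ Om r N ∧ Function.Injective f := by
  classical
  simp [OmI]

theorem OmI_subset (r : Fin n → Fin n → Prop) (N : ℕ) : OmI r N ⊆ Om r N := by
  intro f hf
  exact (mem_OmI.1 hf).1

/-- The increasing enumeration of a finite set of integers with `n` elements. -/
noncomputable def enum (T : Finset ℤ) (k : Fin n) : ℤ :=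
  if h : T.card = n then T.orderEmbOfFin h k else 0

theorem enum_eq {T : Finset ℤ} (h : T.card = n) (k : Fin n) :
    enum T k = T.orderEmbOfFin h k := by
  simp [enum, h]

theorem enum_mem {T : Finset ℤ} (h : T.card = n) (k : Fin n) : enum T k ∈ T := by
  rw [enum_eq h]; exact T.orderEmbOfFin_mem h k

theorem enum_lt {T : Finset ℤ} (h : T.card = n) (k l : Fin n) : enum T k < enum T l ↔ k < l := by
  rw [enum_eq h, enum_eq h]; exact (T.orderEmbOfFin h).lt_iff_lt

theorem enum_le {T : Finset ℤ} (h : T.card = n) (k l : Fin n) : enum T k ≤ enum T l ↔ k ≤ l := by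
  rw [enum_eq h, enum_eq h]; exact (T.orderEmbOfFin h).le_iff_le

theorem enum_inj {T : Finset ℤ} (h : T.card = n) : Function.Injective (enum (n := n) T) := by
  intro k l hkl
  rw [enum_eq h, enum_eq h] at hkl
  exact (T.orderEmbOfFin h).injective hkl

theorem enum_surj {T : Finset ℤ} (h : T.card = n) {x : ℤ} (hx : x ∈ T) :
    ∃ k : Fin n, enum T k = x := by
  have : x ∈ Set.range (T.orderEmbOfFin h) := by
    rw [T.range_orderEmbOfFin h]; exact hx
  obtain ⟨k, hk⟩ := this
  exact ⟨k, by rw [enum_eq h]; exact hk⟩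

theorem image_enum {T : Finset ℤ} (h : T.card = n) (σ : Equiv.Perm (Fin n)) :
    univ.image (fun q => enum T (σ q)) = T := by
  ext x
  simp only [mem_image, mem_univ, true_and]
  constructor
  · rintro ⟨q, rfl⟩; exact enum_mem h _
  · intro hx
    obtain ⟨k, hk⟩ := enum_surj h hx
    exact ⟨σ.symm k, by simp [hk]⟩

/-- Summation over injective order preserving maps. -/
theorem sum_OmI (r : Fin n → Fin n → Prop) (N : ℕ) (G : (Fin n → ℤ) → ℝ) :
    ∑ f ∈ OmI r N, G f =
      ∑ σ ∈ LEf r, ∑ T ∈ powersetCard n (Ico (0 : ℤ) N), G (fun q => enum T (σ q)) := by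
  classical
  rw [← Finset.sum_product']
  symm
  refine Finset.sum_bij (fun p _ => fun q => enum p.2 (p.1 q)) ?_ ?_ ?_ ?_
  · rintro ⟨σ, T⟩ hp
    obtain ⟨hσ, hT⟩ := Finset.mem_product.1 hp
    simp only at hσ hT
    obtain ⟨hTs, hTc⟩ := mem_powersetCard.1 hT
    rw [mem_OmI, mem_Om]
    refine ⟨⟨fun q => ?_, fun i j hij => ?_⟩, fun a b hab => ?_⟩
    · have := hTs (enum_mem hTc (σ q))
      rw [Finset.mem_Ico] at this
      exact this
    · exact (enum_le hTc _ _).2 (mem_LEf.1 hσ i j hij)
    · exact σ.injective (enum_inj hTc hab)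
  · rintro ⟨σ, T⟩ hp ⟨σ', T'⟩ hp' heq
    obtain ⟨hσ, hT⟩ := Finset.mem_product.1 hp
    obtain ⟨hσ', hT'⟩ := Finset.mem_product.1 hp'
    simp only at hσ hT hσ' hT' heq
    obtain ⟨hTs, hTc⟩ := mem_powersetCard.1 hT
    obtain ⟨hTs', hTc'⟩ := mem_powersetCard.1 hT'
    have h1 : T = T' := by
      rw [← image_enum hTc σ, ← image_enum hTc' σ', heq]
    subst h1
    have h2 : σ = σ' := by
      ext q
      have := congrFun heq q
      rw [enum_inj hTc this]
    rw [h2]
  · intro f hf
    obtain ⟨hfO, hfi⟩ := mem_OmI.1 hf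
    obtain ⟨hrg, hmono⟩ := mem_Om.1 hfO
    have hTc : (univ.image f).card = n := by
      rw [Finset.card_image_of_injective _ hfi]; simp
    have hex : ∀ q, ∃ k : Fin n, enum (univ.image f) k = f q := fun q =>
      enum_surj hTc (Finset.mem_image_of_mem f (mem_univ q))
    choose s hs using hex
    have hsi : Function.Injective s := by
      intro a b hab
      apply hfi
      rw [← hs a, ← hs b, hab]
    refine ⟨(Equiv.ofBijective s (Finite.injective_iff_bijective.1 hsi), univ.image f), ?_, ?_⟩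
    · rw [Finset.mem_product]
      refine ⟨?_, ?_⟩
      · simp only
        rw [mem_LEf]
        intro a b hab
        show s a ≤ s b
        rw [← enum_le hTc, hs, hs]
        exact hmono a b hab
      · simp only
        rw [mem_powersetCard]
        refine ⟨?_, hTc⟩
        intro x hx
        obtain ⟨q, -, rfl⟩ := Finset.mem_image.1 hx
        rw [Finset.mem_Ico]
        exact hrg q
    · funext q
      show enum (univ.image f) (s q) = f q
      exact hs q
  · rintro ⟨σ, T⟩ _
    rfl

theorem card_OmI (r : Fin n → Fin n → Prop) (N : ℕ) :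
    ((OmI r N).card : ℝ) = (LEf r).card * (N.choose n : ℝ) := by
  have := sum_OmI r N (fun _ => 1)
  simp only [Finset.sum_const, nsmul_eq_mul, mul_one, Finset.card_powersetCard, Int.card_Ico,
    sub_zero, Int.toNat_natCast] at this
  exact this

/-- Existence of a linear extension. -/
theorem LEf_pos {r : Fin n → Fin n → Prop} (hr : IsPoset r) : 0 < (LEf r).card := by
  classical
  have : IsPartialOrder (Fin n) r :=
    { refl := hr.1, trans := hr.2.1, antisymm := fun a b => hr.2.2 a b }
  obtain ⟨s, hs, hrs⟩ := extend_partialOrder r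
  have hlt : ∀ a b, s a b → a ≠ b →
      (univ.filter (fun c => s c a ∧ c ≠ a)).card < (univ.filter (fun c => s c b ∧ c ≠ b)).card := by
    intro a b hab hne
    apply card_lt_card
    rw [ssubset_iff_of_subset]
    · exact ⟨a, by simp [hab, hne], by simp⟩
    · intro c hc
      simp only [mem_filter, mem_univ, true_and] at hc ⊢
      refine ⟨hs.trans c a b hc.1 hab, ?_⟩
      rintro rfl
      exact hc.2 (hs.antisymm _ _ hc.1 hab)
  let f : Fin n → Fin n := fun a => ⟨(univ.filter (fun c => s c a ∧ c ≠ a)).card, by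
    have : (univ.filter (fun c => s c a ∧ c ≠ a)).card < (univ : Finset (Fin n)).card := by
      apply card_lt_card
      rw [ssubset_iff_of_subset (subset_univ _)]
      exact ⟨a, mem_univ _, by simp⟩
    simpa using this⟩
  have hf : Function.Injective f := by
    intro a b hab
    by_contra hne
    have h1 : (univ.filter (fun c => s c a ∧ c ≠ a)).card =
        (univ.filter (fun c => s c b ∧ c ≠ b)).card := by
      simpa [f] using hab
    rcases hs.total a b with h | h
    · have := hlt a b h hne; omega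
    · have := hlt b a h (Ne.symm hne); omega
  refine card_pos.2 ⟨Equiv.ofBijective f (Finite.injective_iff_bijective.1 hf), ?_⟩
  rw [mem_LEf]
  intro a b hab
  show f a ≤ f b
  by_cases hne : a = b
  · rw [hne]
  · exact (hlt a b (hrs a b hab) hne).le

theorem prob_eq (r : Fin n → Fin n → Prop) (x y : Fin n) :
    prob r x y = (((LEf r).filter (fun σ => σ x < σ y)).card : ℝ) / ((LEf r).card : ℝ) := by
  classical
  unfold prob
  rw [Nat.card_eq_fintype_card, Nat.card_eq_fintype_card, Fintype.card_subtype,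
    Fintype.card_subtype]
  congr 2
  congr 1
  ext σ
  simp [LEf]

/-! ### Averages and the transfer lemma -/

/-- The average of a statistic over a finite set. -/
noncomputable def av {α : Type*} (O : Finset α) (s : α → ℝ) : ℝ := (∑ x ∈ O, s x) / O.card

open Classical in
theorem pr_eq_av {α : Type*} (O : Finset α) (p : α → Prop) :
    pr O p = av O (fun x => if p x then 1 else 0) := by
  unfold pr av
  rw [Finset.sum_boole]

theorem transfer {α : Type*} (I O : Finset α) (hIO : I ⊆ O) (hI : 0 < I.card) (τ B : ℝ)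
    (hτ : ((O.card : ℝ) - I.card) ≤ τ * I.card) (s : α → ℝ)
    (hs0 : ∀ x ∈ O, 0 ≤ s x) (hsB : ∀ x ∈ O, s x ≤ B) :
    |av O s - av I s| ≤ τ * B := by
  classical
  have hIr : (0 : ℝ) < I.card := by exact_mod_cast hI
  have hOI : (I.card : ℝ) ≤ O.card := by exact_mod_cast Finset.card_le_card hIO
  have hOr : (0 : ℝ) < O.card := lt_of_lt_of_le hIr hOI
  have hne : I.Nonempty := Finset.card_pos.1 hI
  obtain ⟨x0, hx0⟩ := hne
  have hB : 0 ≤ B := le_trans (hs0 x0 (hIO hx0)) (hsB x0 (hIO hx0))
  have hτ0 : 0 ≤ τ := by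
    by_contra h
    push Not at h
    have : τ * I.card < 0 := mul_neg_of_neg_of_pos h hIr
    linarith
  have hsplit : ∑ x ∈ O, s x = ∑ x ∈ I, s x + ∑ x ∈ O \ I, s x := by
    rw [add_comm, Finset.sum_sdiff hIO]
  have hD0 : 0 ≤ ∑ x ∈ O \ I, s x :=
    Finset.sum_nonneg (fun x hx => hs0 x (Finset.mem_sdiff.1 hx).1)
  have hDB : ∑ x ∈ O \ I, s x ≤ ((O.card : ℝ) - I.card) * B := by
    have h1 : ∑ x ∈ O \ I, s x ≤ ∑ x ∈ O \ I, B :=
      Finset.sum_le_sum (fun x hx => hsB x (Finset.mem_sdiff.1 hx).1)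
    have h2 : ((O \ I).card : ℝ) = (O.card : ℝ) - I.card := by
      rw [Finset.card_sdiff_of_subset hIO, Nat.cast_sub (Finset.card_le_card hIO)]
    rw [Finset.sum_const, nsmul_eq_mul, h2] at h1
    exact h1
  have hS0 : 0 ≤ ∑ x ∈ I, s x := Finset.sum_nonneg (fun x hx => hs0 x (hIO hx))
  have hSB : ∑ x ∈ I, s x ≤ (I.card : ℝ) * B := by
    have h1 : ∑ x ∈ I, s x ≤ ∑ x ∈ I, B := Finset.sum_le_sum (fun x hx => hsB x (hIO hx))
    rw [Finset.sum_const, nsmul_eq_mul] at h1
    exact h1
  unfold av
  rw [hsplit]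
  set S := ∑ x ∈ I, s x
  set D := ∑ x ∈ O \ I, s x
  set o : ℝ := (O.card : ℝ)
  set i : ℝ := (I.card : ℝ)
  have key : (S + D) / o - S / i = (D * i - S * (o - i)) / (o * i) := by
    field_simp
    ring
  rw [key, abs_le]
  constructor
  · rw [le_div_iff₀ (by positivity)]
    have h1 : S * (o - i) ≤ (i * B) * (τ * i) :=
      mul_le_mul hSB hτ (by linarith) (by positivity)
    have h2 : (i * B) * (τ * i) ≤ (τ * B) * (o * i) := by
      have : i * (τ * B * i) ≤ o * (τ * B * i) := by
        apply mul_le_mul_of_nonneg_right hOI; positivity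
      nlinarith [this]
    have h3 : 0 ≤ D * i := by positivity
    nlinarith
  · rw [div_le_iff₀ (by positivity)]
    have h1 : D * i ≤ (τ * i * B) * i := by
      apply mul_le_mul_of_nonneg_right _ hIr.le
      refine le_trans hDB ?_
      exact mul_le_mul_of_nonneg_right hτ hB
    have h2 : (τ * i * B) * i ≤ (τ * B) * (o * i) := by
      have : i * (τ * B * i) ≤ o * (τ * B * i) := by
        apply mul_le_mul_of_nonneg_right hOI; positivity
      nlinarith [this]
    have h3 : 0 ≤ S * (o - i) := mul_nonneg hS0 (by linarith)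
    linarith

/-! ### The tie bound -/

theorem card_tie (N : ℕ) (i j : Fin n) (hij : i ≠ j) :
    ((Fintype.piFinset (fun _ : Fin n => Ico (0 : ℤ) N)).filter (fun f => f i = f j)).card
      ≤ N ^ (n - 1) := by
  classical
  have h1 : ((Fintype.piFinset (fun _ : Fin n => Ico (0 : ℤ) N)).filter (fun f => f i = f j)).card
      ≤ (Fintype.piFinset (fun _ : {k : Fin n // k ≠ j} => Ico (0 : ℤ) N)).card := by
    refine Finset.card_le_card_of_injOn (fun f => fun k : {k : Fin n // k ≠ j} => f k) ?_ ?_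
    · intro f hf
      have hf' := (Finset.mem_filter.1 (Finset.mem_coe.1 hf)).1
      rw [Fintype.mem_piFinset] at hf'
      rw [Finset.mem_coe, Fintype.mem_piFinset]
      intro k
      exact hf' k
    · intro f hf g hg hfg
      have hf' := (Finset.mem_filter.1 (Finset.mem_coe.1 hf)).2
      have hg' := (Finset.mem_filter.1 (Finset.mem_coe.1 hg)).2
      have hk : ∀ k, k ≠ j → f k = g k := fun k hk => congrFun hfg ⟨k, hk⟩
      funext k
      by_cases h : k = j
      · subst h
        rw [← hf', ← hg']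
        exact hk i hij
      · exact hk k h
  refine le_trans h1 ?_
  rw [Fintype.card_piFinset]
  simp only [Int.card_Ico, sub_zero, Int.toNat_natCast, Finset.prod_const, Finset.card_univ]
  have : Fintype.card {k : Fin n // k ≠ j} = n - 1 := by
    rw [Fintype.card_subtype_compl]
    simp
  rw [this]

theorem card_Om_sub (r : Fin n → Fin n → Prop) (N : ℕ) :
    ((Om r N).card : ℝ) - (OmI r N).card ≤ (n : ℝ) ^ 2 * (N : ℝ) ^ (n - 1) := by
  classical
  have h1 : ((Om r N) \ (OmI r N)) ⊆ (univ : Finset (Fin n × Fin n)).biUnion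
      (fun p => if p.1 = p.2 then ∅ else
        (Fintype.piFinset (fun _ : Fin n => Ico (0 : ℤ) N)).filter (fun f => f p.1 = f p.2)) := by
    intro f hf
    obtain ⟨hfO, hfn⟩ := Finset.mem_sdiff.1 hf
    rw [mem_OmI] at hfn
    have hni : ¬ Function.Injective f := fun h => hfn ⟨hfO, h⟩
    unfold Function.Injective at hni
    push Not at hni
    obtain ⟨a, b, hab, hne⟩ := hni
    rw [Finset.mem_biUnion]
    refine ⟨(a, b), mem_univ _, ?_⟩
    simp only [hne, if_false]
    rw [Finset.mem_filter, Fintype.mem_piFinset]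
    refine ⟨fun q => ?_, hab⟩
    rw [Finset.mem_Ico]
    exact (mem_Om.1 hfO).1 q
  have h2 := Finset.card_le_card h1
  have h3 : ((univ : Finset (Fin n × Fin n)).biUnion
      (fun p => if p.1 = p.2 then ∅ else
        (Fintype.piFinset (fun _ : Fin n => Ico (0 : ℤ) N)).filter (fun f => f p.1 = f p.2))).card
      ≤ ∑ p : Fin n × Fin n, N ^ (n - 1) := by
    refine le_trans Finset.card_biUnion_le ?_
    apply Finset.sum_le_sum
    intro p _
    by_cases h : p.1 = p.2
    · simp [h]
    · simp only [h, if_false]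
      exact card_tie N p.1 p.2 h
  have h4 : ∑ p : Fin n × Fin n, N ^ (n - 1) = n ^ 2 * N ^ (n - 1) := by
    simp [sq]
  rw [h4] at h3
  have h5 : (Om r N).card - (OmI r N).card ≤ n ^ 2 * N ^ (n - 1) := by
    rw [← Finset.card_sdiff_of_subset (OmI_subset r N)]
    exact le_trans h2 h3
  have h6 := Finset.card_le_card (OmI_subset r N)
  have h7 : ((Om r N).card : ℝ) - (OmI r N).card = (((Om r N).card - (OmI r N).card : ℕ) : ℝ) := by
    rw [Nat.cast_sub h6]
  rw [h7]
  exact_mod_cast h5

theorem choose_lower (n N : ℕ) (h : 2 * n ≤ N) :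
    (N : ℝ) ^ n ≤ 2 ^ n * (n.factorial : ℝ) * (N.choose n : ℝ) := by
  have h1 : (N + 1 - n) ^ n ≤ N.descFactorial n := Nat.pow_sub_le_descFactorial N n
  rw [Nat.descFactorial_eq_factorial_mul_choose] at h1
  have h2 : ((N + 1 - n : ℕ) : ℝ) ^ n ≤ (n.factorial : ℝ) * (N.choose n : ℝ) := by
    exact_mod_cast h1
  have h3 : (N : ℝ) / 2 ≤ ((N + 1 - n : ℕ) : ℝ) := by
    rw [Nat.cast_sub (by omega)]
    push_cast
    have : (2 * (n : ℝ)) ≤ N := by exact_mod_cast h
    linarith
  have h4 : ((N : ℝ) / 2) ^ n ≤ ((N + 1 - n : ℕ) : ℝ) ^ n :=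
    pow_le_pow_left₀ (by positivity) h3 n
  have h5 : (N : ℝ) ^ n = 2 ^ n * ((N : ℝ) / 2) ^ n := by
    rw [← mul_pow]; congr 1; ring
  rw [h5, mul_assoc]
  apply mul_le_mul_of_nonneg_left (le_trans h4 h2) (by positivity)

/-- For large `N` almost all order preserving maps are injective. -/
theorem exists_tie {r : Fin n → Fin n → Prop} (hn : 0 < n) (hr : IsPoset r) (τ : ℝ) (hτ : 0 < τ) :
    ∃ N0 : ℕ, n ≤ N0 ∧ ∀ N : ℕ, N0 ≤ N → 0 < (OmI r N).card ∧
      ((Om r N).card : ℝ) - (OmI r N).card ≤ τ * (OmI r N).card := by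
  obtain ⟨M, hM⟩ := exists_nat_ge ((n : ℝ) ^ 2 * (2 ^ n * (n.factorial : ℝ)) / τ)
  refine ⟨max M (2 * n), le_trans (by omega) (le_max_right _ _), ?_⟩
  intro N hN
  have hN1 : M ≤ N := le_trans (le_max_left _ _) hN
  have hN2 : 2 * n ≤ N := le_trans (le_max_right _ _) hN
  have hNpos : (0 : ℝ) < N := by
    have : 0 < N := by omega
    exact_mod_cast this
  have hLE := LEf_pos hr
  have hLEr : (1 : ℝ) ≤ (LEf r).card := by exact_mod_cast hLE
  have hch : 0 < N.choose n := Nat.choose_pos (by omega)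
  have hchr : (0 : ℝ) < (N.choose n : ℝ) := by exact_mod_cast hch
  have hI : (N.choose n : ℝ) ≤ (OmI r N).card := by
    rw [card_OmI]
    nlinarith
  constructor
  · have : (0 : ℝ) < (OmI r N).card := lt_of_lt_of_le hchr hI
    exact_mod_cast this
  · refine le_trans (card_Om_sub r N) ?_
    have h1 : (n : ℝ) ^ 2 * (N : ℝ) ^ (n - 1) * N ≤ τ * (N.choose n : ℝ) * N := by
      have hp : (N : ℝ) ^ (n - 1) * N = (N : ℝ) ^ n := by
        rw [← pow_succ]; congr 1; omega
      rw [mul_assoc, hp]
      have h2 := choose_lower n N hN2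
      have h3 : (n : ℝ) ^ 2 * (2 ^ n * (n.factorial : ℝ)) ≤ τ * N := by
        have : (M : ℝ) ≤ N := by exact_mod_cast hN1
        have h4 := le_trans hM this
        rw [div_le_iff₀ hτ] at h4
        linarith
      calc (n : ℝ) ^ 2 * (N : ℝ) ^ n ≤ (n : ℝ) ^ 2 * (2 ^ n * (n.factorial : ℝ) * (N.choose n : ℝ)) := by
            apply mul_le_mul_of_nonneg_left h2 (by positivity)
        _ = ((n : ℝ) ^ 2 * (2 ^ n * (n.factorial : ℝ))) * (N.choose n : ℝ) := by ring
        _ ≤ (τ * N) * (N.choose n : ℝ) := by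
            apply mul_le_mul_of_nonneg_right h3 hchr.le
        _ = τ * (N.choose n : ℝ) * N := by ring
    have h5 := le_of_mul_le_mul_right h1 hNpos
    exact le_trans h5 (mul_le_mul_of_nonneg_left hI hτ.le)

end Pool.Agent.Helper17.KSLink
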