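import Pool.Agent.Helper17.KneserFun

set_option autoImplicit false

/-!
Subspaces of `ι → ℂ` on which the first three power sums vanish have dimension at most
`(card ι - 1) / 3`.
-/

namespace Pool.Agent.Helper17.PowerSum

open Module Pool.Agent.Helper17.KneserFun

variable {ι : Type*} [Fintype ι]

/-- orthogonal subspaces for the standard bilinear form -/
theorem finrank_add_le_of_orth (Y U : Submodule ℂ (ι → ℂ))
    (h : ∀ y ∈ Y, ∀ u ∈ U, ∑ i, y i * u i = 0) :
    finrank ℂ Y + finrank ℂ U ≤ Fintype.card ι := by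
  classical
  let φ : (ι → ℂ) →ₗ[ℂ] (Dual ℂ (ι → ℂ)) :=
    LinearMap.mk₂ ℂ (fun x y => ∑ i, y i * x i)
      (by intro x x' y; simp [mul_add, Finset.sum_add_distrib])
      (by intro c x y; simp [Finset.mul_sum, mul_left_comm])
      (by intro x y y'; simp [add_mul, Finset.sum_add_distrib])
      (by intro c x y; simp [Finset.mul_sum, mul_assoc])
  have hφ : Function.Injective φ := by
    rw [← LinearMap.ker_eq_bot, LinearMap.ker_eq_bot']
    intro x hx
    funext i
    have := LinearMap.congr_fun hx (Pi.single i 1)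
    simp only [φ, LinearMap.mk₂_apply, LinearMap.zero_apply] at this
    rw [Finset.sum_eq_single i] at this
    · simpa using this
    · intro j _ hj; simp [hj]
    · intro hi; exact absurd (Finset.mem_univ i) hi
  have hle : U.map φ ≤ Y.dualAnnihilator := by
    rintro _ ⟨u, hu, rfl⟩
    rw [Submodule.mem_dualAnnihilator]
    intro y hy
    exact h y hy u hu
  have e1 : finrank ℂ (U.map φ) = finrank ℂ U :=
    (LinearEquiv.finrank_eq (Submodule.equivMapOfInjective φ hφ U)).symm
  have e2 := Subspace.finrank_add_finrank_dualAnnihilator_eq Y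
  have e3 := Submodule.finrank_mono hle
  rw [e1] at e3
  rw [Module.finrank_fintype_fun_eq_card] at e2
  omega

/-- Main lemma: three vanishing power sums on a subspace. -/
theorem three_mul_finrank_lt [Nonempty ι] (U : Submodule ℂ (ι → ℂ))
    (h1 : ∀ u ∈ U, ∑ i, u i = 0)
    (h2 : ∀ u ∈ U, ∀ v ∈ U, ∑ i, u i * v i = 0)
    (h3 : ∀ u ∈ U, ∀ v ∈ U, ∀ w ∈ U, ∑ i, u i * v i * w i = 0) :
    3 * finrank ℂ U + 1 ≤ Fintype.card ι := by
  classical
  let V : Submodule ℂ (ι → ℂ) := Submodule.span ℂ {(1 : ι → ℂ)} ⊔ U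
  have h1V : (1 : ι → ℂ) ∈ V := Submodule.mem_sup_left (Submodule.mem_span_singleton_self _)
  have hUV : U ≤ V := le_sup_right
  let Y : Submodule ℂ (ι → ℂ) := V * V
  have hYU : ∀ y ∈ Y, ∀ u ∈ U, ∑ i, y i * u i = 0 := by
    intro y hy u hu
    refine Submodule.mul_induction_on hy ?_ ?_
    · intro a ha b hb
      obtain ⟨a1, ha1, a2, ha2, rfl⟩ := Submodule.mem_sup.1 ha
      obtain ⟨b1, hb1, b2, hb2, rfl⟩ := Submodule.mem_sup.1 hb
      obtain ⟨s, rfl⟩ := Submodule.mem_span_singleton.1 ha1
      obtain ⟨t, rfl⟩ := Submodule.mem_span_singleton.1 hb1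
      have e : ∀ i, ((s • (1 : ι → ℂ) + a2) * (t • (1 : ι → ℂ) + b2)) i * u i
          = s * t * u i + s * (b2 i * u i) + t * (a2 i * u i) + a2 i * b2 i * u i := by
        intro i
        simp only [Pi.mul_apply, Pi.add_apply, Pi.smul_apply, Pi.one_apply, smul_eq_mul]
        ring
      rw [Finset.sum_congr rfl (fun i _ => e i), Finset.sum_add_distrib, Finset.sum_add_distrib,
        Finset.sum_add_distrib, ← Finset.mul_sum, ← Finset.mul_sum, ← Finset.mul_sum,
        h1 u hu, h2 b2 hb2 u hu, h2 a2 ha2 u hu, h3 a2 ha2 b2 hb2 u hu]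
      simp
    · intro a b ha hb
      simp only [Pi.add_apply, add_mul, Finset.sum_add_distrib, ha, hb, add_zero]
  -- the stabiliser of Y
  let H0 : Subalgebra ℂ (ι → ℂ) :=
    { carrier := {h | ∀ y ∈ Y, h * y ∈ Y}
      mul_mem' := by
        intro a b ha hb y hy
        rw [mul_assoc]; exact ha _ (hb y hy)
      add_mem' := by
        intro a b ha hb y hy
        rw [add_mul]; exact Y.add_mem (ha y hy) (hb y hy)
      algebraMap_mem' := by
        intro r y hy
        rw [← Algebra.smul_def]; exact Y.smul_mem r hy }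
  have hH0 : ∀ h ∈ H0, ∀ y ∈ Y, h * y ∈ Y := fun h hh => hh
  have h1Y : (1 : ι → ℂ) ∈ Y := by
    have := Submodule.mul_mem_mul h1V h1V
    rwa [mul_one] at this
  have hH0Y : ∀ h ∈ H0, h ∈ Y := by
    intro h hh
    have := hH0 h hh 1 h1Y
    rwa [mul_one] at this
  let HM : Submodule ℂ (ι → ℂ) := Subalgebra.toSubmodule H0
  have hHM : ∀ x, x ∈ HM ↔ x ∈ H0 := fun x => Subalgebra.mem_toSubmodule H0
  let V' : Submodule ℂ (ι → ℂ) := HM * V
  let U' : Submodule ℂ (ι → ℂ) := HM * U
  have h1H : (1 : ι → ℂ) ∈ HM := (hHM 1).2 H0.one_mem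
  have h1V' : (1 : ι → ℂ) ∈ V' := by
    have := Submodule.mul_mem_mul h1H h1V
    rwa [mul_one] at this
  have hVV' : V ≤ V' := by
    intro x hx
    have := Submodule.mul_mem_mul h1H hx
    rwa [one_mul] at this
  have hUU' : U ≤ U' := by
    intro x hx
    have := Submodule.mul_mem_mul h1H hx
    rwa [one_mul] at this
  have hV'V' : V' * V' = Y := by
    apply le_antisymm
    · have e : V' * V' = HM * (HM * Y) := by
        simp only [V', Y]
        calc HM * V * (HM * V) = HM * HM * (V * V) := by ring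
          _ = HM * (HM * (V * V)) := by ring
      rw [e, Submodule.mul_le]
      intro h hh y hy
      refine hH0 h ((hHM h).1 hh) y ?_
      refine (Submodule.mul_le.2 ?_) hy
      intro h' hh' y' hy'
      exact hH0 h' ((hHM h').1 hh') y' hy'
    · exact mul_le_mul' hVV' hVV'
  -- orthogonality of Y and U'
  have hYU' : ∀ y ∈ Y, ∀ u ∈ U', ∑ i, y i * u i = 0 := by
    intro y hy u hu
    refine Submodule.mul_induction_on hu ?_ ?_
    · intro h hh x hx
      have := hYU (h * y) (hH0 h ((hHM h).1 hh) y hy) x hx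
      rw [← this]
      refine Finset.sum_congr rfl (fun i _ => ?_)
      simp only [Pi.mul_apply]; ring
    · intro a b ha hb
      simp only [Pi.add_apply, mul_add, Finset.sum_add_distrib, ha, hb, add_zero]
  have hd1 := finrank_add_le_of_orth Y U' hYU'
  -- HM and U' are independent
  have hdisj : HM ⊓ U' = ⊥ := by
    rw [Submodule.eq_bot_iff]
    rintro x ⟨hxH, hxU⟩
    have hxH0 : x ∈ H0 := (hHM x).1 hxH
    funext i
    obtain ⟨e, heH, he1, he0⟩ := exists_indicator H0 i
    have h := hYU' e (hH0Y e heH) x hxU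
    have h' : ∀ k, e k * x k = if (∀ h ∈ H0, h i = h k) then x i else 0 := by
      intro k
      split_ifs with hk
      · rw [he1 k hk, one_mul, hk x hxH0]
      · rw [he0 k hk, zero_mul]
    rw [Finset.sum_congr rfl (fun k _ => h' k), ← Finset.sum_filter, Finset.sum_const,
      nsmul_eq_mul] at h
    rcases mul_eq_zero.1 h with h0 | h0
    · exfalso
      have : (Finset.univ.filter (fun k => ∀ h ∈ H0, h i = h k)).card = 0 := by exact_mod_cast h0
      rw [Finset.card_eq_zero] at this
      have hi : i ∈ Finset.univ.filter (fun k => ∀ h ∈ H0, h i = h k) := by simp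
      rw [this] at hi
      exact absurd hi (Finset.notMem_empty i)
    · exact h0
  have hsup : HM ⊔ U' ≤ V' := by
    rw [sup_le_iff]
    constructor
    · intro x hx
      have := Submodule.mul_mem_mul hx h1V
      rwa [mul_one] at this
    · exact mul_le_mul' (le_refl _) hUV
  have hd2 : finrank ℂ HM + finrank ℂ U' ≤ finrank ℂ V' := by
    have := Submodule.finrank_sup_add_finrank_inf_eq HM U'
    rw [hdisj, finrank_bot, add_zero] at this
    rw [← this]
    exact Submodule.finrank_mono hsup
  obtain ⟨K, hK, hKd⟩ := kneser_sq V' h1V'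
  rw [hV'V'] at hK hKd
  have hKH : K ≤ H0 := fun h hh => hK h hh
  have hd3 : finrank ℂ K ≤ finrank ℂ HM := by
    have : Subalgebra.toSubmodule K ≤ HM := fun x hx => hKH hx
    exact Submodule.finrank_mono this
  have hd4 : 1 ≤ finrank ℂ HM := by
    have : HM ≠ ⊥ := by
      intro hb
      rw [hb, Submodule.mem_bot] at h1H
      exact one_ne_zero h1H
    exact Nat.one_le_iff_ne_zero.2 (fun h0 => this (Submodule.finrank_eq_zero.1 h0))
  have hd5 : finrank ℂ U ≤ finrank ℂ U' := Submodule.finrank_mono hUU'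
  omega

end Pool.Agent.Helper17.PowerSum
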