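import Pool.Agent.Helper17.Border
import Pool.Agent.Helper17.PowerSum

set_option autoImplicit false

/-!
Lower bound for the size of an affine determinantal representation of the permanent.
-/

namespace Pool.Agent.Helper17.AffineBound

open Module Pool.Agent.Helper17.Border Pool.Agent.Helper17.PowerSum

variable {κ : Type*} [Fintype κ] [DecidableEq κ]

/-- the linear conditions -/
noncomputable def cond {n : ℕ} (L : Matrix (Option κ) (Option κ) ℂ →ₗ[ℂ] Matrix (Fin n) (Fin n) ℂ)
    (u : Fin n → ℂ) (j0 : κ) :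
    (κ × κ → ℂ) →ₗ[ℂ] ((Fin n → ℂ) × ((κ → ℂ) × ({j : κ // j ≠ j0} → ℂ))) where
  toFun x := ((L (emb (fun i j => x (i, j)))).mulVec u,
    (fun i => ∑ j, x (i, j)), (fun j => ∑ i, x (i, j.1)))
  map_add' := by
    intro x y
    have e : emb (fun i j => (x + y) (i, j))
        = emb (fun i j => x (i, j)) + emb (fun i j => y (i, j)) := by
      rw [← map_add]; rfl
    refine Prod.ext ?_ (Prod.ext ?_ ?_)
    · change (L (emb (fun i j => (x + y) (i, j)))).mulVec u = _
      rw [e, map_add, Matrix.add_mulVec]; rfl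
    · funext i; simp [Finset.sum_add_distrib]
    · funext j; simp [Finset.sum_add_distrib]
  map_smul' := by
    intro c x
    have e : emb (fun i j => (c • x) (i, j)) = c • emb (fun i j => x (i, j)) := by
      rw [← map_smul]; rfl
    refine Prod.ext ?_ (Prod.ext ?_ ?_)
    · change (L (emb (fun i j => (c • x) (i, j)))).mulVec u = _
      rw [e, map_smul, Matrix.smul_mulVec]; rfl
    · funext i; simp [Finset.mul_sum]
    · funext j; simp [Finset.mul_sum]

theorem affine_bound [Nonempty κ] {n : ℕ} (M0 : Matrix (Fin n) (Fin n) ℂ)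
    (L : Matrix (Option κ) (Option κ) ℂ →ₗ[ℂ] Matrix (Fin n) (Fin n) ℂ)
    (h : ∀ x, (M0 + L x).det = x.permanent) :
    2 * (Fintype.card κ * Fintype.card κ) + 4 ≤ 3 * n + 6 * Fintype.card κ := by
  classical
  obtain ⟨j0⟩ := (inferInstance : Nonempty κ)
  have hdet : (M0 + L (bord 0)).det = 0 := by rw [h, permanent_bord_zero]
  obtain ⟨u, hu0, hu⟩ := Matrix.exists_mulVec_eq_zero_iff.2 hdet
  let Ψ := cond L u j0
  let U : Submodule ℂ (κ × κ → ℂ) := LinearMap.ker Ψ
  -- consequences for a vector of U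
  have hU : ∀ x ∈ U, (∀ i, ∑ j, x (i, j) = 0) ∧ (∀ j, ∑ i, x (i, j) = 0) ∧
      (∑ i, ∑ j, x (i, j) ^ 2 = 0) ∧ (∑ i, ∑ j, x (i, j) ^ 3 = 0) := by
    intro x hx
    have hx0 : Ψ x = 0 := LinearMap.mem_ker.1 hx
    have h1 : (L (emb (fun i j => x (i, j)))).mulVec u = 0 := congrArg Prod.fst hx0
    have h2 : ∀ i, ∑ j, x (i, j) = 0 := fun i => congrFun (congrArg (fun p => p.2.1) hx0) i
    have h3 : ∀ j : {j : κ // j ≠ j0}, ∑ i, x (i, j.1) = 0 :=
      fun j => congrFun (congrArg (fun p => p.2.2) hx0) j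
    have h4 : ∀ j, ∑ i, x (i, j) = 0 := by
      intro j
      by_cases hj : j = j0
      · subst hj
        have e1 : ∑ j', ∑ i, x (i, j') = 0 := by
          rw [Finset.sum_comm]
          exact Finset.sum_eq_zero (fun i _ => h2 i)
        rw [← Finset.add_sum_erase Finset.univ _ (Finset.mem_univ j)] at e1
        rw [Finset.sum_eq_zero (s := Finset.univ.erase j)
          (fun j' hj' => h3 ⟨j', Finset.ne_of_mem_erase hj'⟩), add_zero] at e1
        exact e1
      · exact h3 ⟨j, hj⟩
    have h5 := power_sums (fun i j => x (i, j)) h2 h4 (by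
      intro t
      rw [bord_eq, ← h]
      have e2 : M0 + L (bord 0 + emb (t • fun i j => x (i, j)))
          = (M0 + L (bord 0)) + t • L (emb (fun i j => x (i, j))) := by
        rw [map_add, map_smul, map_smul, add_assoc]
      rw [e2]
      apply Matrix.exists_mulVec_eq_zero_iff.1
      refine ⟨u, hu0, ?_⟩
      rw [Matrix.add_mulVec, hu, Matrix.smul_mulVec, h1, smul_zero, add_zero])
    exact ⟨h2, h4, h5.1, h5.2⟩
  have hp1 : ∀ x ∈ U, ∑ p, x p = 0 := by
    intro x hx
    rw [Fintype.sum_prod_type]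
    exact Finset.sum_eq_zero (fun i _ => (hU x hx).1 i)
  have hp2 : ∀ x ∈ U, ∑ p, x p ^ 2 = 0 := by
    intro x hx
    rw [Fintype.sum_prod_type]
    exact (hU x hx).2.2.1
  have hp3 : ∀ x ∈ U, ∑ p, x p ^ 3 = 0 := by
    intro x hx
    rw [Fintype.sum_prod_type]
    exact (hU x hx).2.2.2
  have hb2 : ∀ x ∈ U, ∀ y ∈ U, ∑ p, x p * y p = 0 := by
    intro x hx y hy
    have e := hp2 (x + y) (U.add_mem hx hy)
    have e1 := hp2 x hx
    have e2 := hp2 y hy
    have e3 : ∑ p, (x + y) p ^ 2 = ∑ p, x p ^ 2 + ∑ p, y p ^ 2 + 2 * ∑ p, x p * y p := by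
      rw [Finset.mul_sum, ← Finset.sum_add_distrib, ← Finset.sum_add_distrib]
      refine Finset.sum_congr rfl (fun p _ => ?_)
      simp only [Pi.add_apply]; ring
    rw [e3, e1, e2, zero_add, zero_add] at e
    rcases mul_eq_zero.1 e with h0 | h0
    · norm_num at h0
    · exact h0
  have hb3 : ∀ x ∈ U, ∀ y ∈ U, ∀ w ∈ U, ∑ p, x p * y p * w p = 0 := by
    intro x hx y hy w hw
    have e := hp3 (x + y + w) (U.add_mem (U.add_mem hx hy) hw)
    have exy := hp3 (x + y) (U.add_mem hx hy)
    have exw := hp3 (x + w) (U.add_mem hx hw)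
    have eyw := hp3 (y + w) (U.add_mem hy hw)
    have e1 := hp3 x hx
    have e2 := hp3 y hy
    have e3 := hp3 w hw
    have e4 : 6 * ∑ p, x p * y p * w p = ∑ p, (x + y + w) p ^ 3 - ∑ p, (x + y) p ^ 3
        - ∑ p, (x + w) p ^ 3 - ∑ p, (y + w) p ^ 3 + ∑ p, x p ^ 3 + ∑ p, y p ^ 3
        + ∑ p, w p ^ 3 := by
      rw [Finset.mul_sum, ← Finset.sum_sub_distrib, ← Finset.sum_sub_distrib,
        ← Finset.sum_sub_distrib, ← Finset.sum_add_distrib, ← Finset.sum_add_distrib,
        ← Finset.sum_add_distrib]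
      refine Finset.sum_congr rfl (fun p _ => ?_)
      simp only [Pi.add_apply]; ring
    rw [e, exy, exw, eyw, e1, e2, e3] at e4
    have e5 : (6 : ℂ) * ∑ p, x p * y p * w p = 0 := by rw [e4]; ring
    rcases mul_eq_zero.1 e5 with h0 | h0
    · norm_num at h0
    · exact h0
  have hmain := three_mul_finrank_lt U hp1 hb2 hb3
  -- dimension count
  have hrank : finrank ℂ (LinearMap.range Ψ) + finrank ℂ U = finrank ℂ (κ × κ → ℂ) :=
    LinearMap.finrank_range_add_finrank_ker Ψ
  have hr2 : finrank ℂ (LinearMap.range Ψ)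
      ≤ n + (Fintype.card κ + (Fintype.card κ - 1)) := by
    refine le_trans (Submodule.finrank_le _) ?_
    rw [Module.finrank_prod, Module.finrank_prod, Module.finrank_fintype_fun_eq_card,
      Module.finrank_fintype_fun_eq_card, Module.finrank_fintype_fun_eq_card, Fintype.card_fin]
    have : Fintype.card {j : κ // j ≠ j0} = Fintype.card κ - 1 := by
      rw [Fintype.card_subtype_compl, Fintype.card_subtype_eq]
    rw [this]
  rw [Module.finrank_fintype_fun_eq_card, Fintype.card_prod] at hrank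
  rw [Fintype.card_prod] at hmain
  have hpos : 0 < Fintype.card κ := Fintype.card_pos_iff.2 ⟨j0⟩
  omega

end Pool.Agent.Helper17.AffineBound
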