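import Pool.Agent.Helper17.PermExpand

set_option autoImplicit false

/-!
The permanent along block directions at the special zero.
-/

namespace Pool.Agent.Helper17.Border

open Equiv Polynomial Pool.Agent.Helper17.PermExpand

variable {κ : Type*} [Fintype κ] [DecidableEq κ]

/-- the bordered matrix: corner `-card κ`, border ones, block `1 + z` -/
noncomputable def bord (z : κ → κ → ℂ) : Matrix (Option κ) (Option κ) ℂ := fun x y =>
  match x, y with
  | none, none => -(Fintype.card κ : ℂ)
  | none, some _ => 1
  | some _, none => 1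
  | some i, some j => 1 + z i j

/-- embedding of block matrices -/
def embFun (z : κ → κ → ℂ) : Matrix (Option κ) (Option κ) ℂ := fun x y =>
  match x, y with
  | none, none => 0
  | none, some _ => 0
  | some _, none => 0
  | some i, some j => z i j

/-- embedding of block matrices, linear -/
def emb : (κ → κ → ℂ) →ₗ[ℂ] Matrix (Option κ) (Option κ) ℂ where
  toFun := embFun
  map_add' := by
    intro z w
    ext x y
    cases x <;> cases y <;> simp [embFun, Matrix.add_apply]
  map_smul' := by
    intro c z
    ext x y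
    cases x <;> cases y <;> simp [embFun, Matrix.smul_apply]

theorem bord_eq (z : κ → κ → ℂ) : bord z = bord 0 + emb z := by
  ext x y
  change bord z x y = bord 0 x y + embFun z x y
  cases x <;> cases y <;> simp [bord, embFun]

theorem permanent_bord (z : κ → κ → ℂ) :
    (bord z).permanent = ∑ τ : Perm κ, (-(Fintype.card κ : ℂ) * ∏ j, (1 + z (τ j) j)
      + ∑ j0, ∏ j, (if j = j0 then 1 else 1 + z (τ j) j)) := by
  unfold Matrix.permanent
  rw [← Equiv.sum_comp (Equiv.Perm.decomposeOption (α := κ)).symm, Fintype.sum_prod_type,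
    Finset.sum_comm]
  refine Finset.sum_congr rfl (fun τ _ => ?_)
  rw [Fintype.sum_option]
  congr 1
  · rw [Fintype.prod_option]
    simp [bord]
  · have : ∀ a : κ, ∏ i, bord z ((Equiv.Perm.decomposeOption (α := κ)).symm (some a, τ) i) i
        = ∏ j, (if j = τ.symm a then 1 else 1 + z (τ j) j) := by
      intro a
      rw [Fintype.prod_option]
      have e1 : bord z ((Equiv.Perm.decomposeOption (α := κ)).symm (some a, τ) none) none = 1 := by
        simp [bord]
      rw [e1, one_mul]
      refine Finset.prod_congr rfl (fun j _ => ?_)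
      by_cases hj : j = τ.symm a
      · subst hj
        simp [bord]
      · have hj' : τ j ≠ a := by
          intro h; apply hj; rw [← h]; simp
        have : (Equiv.Perm.decomposeOption (α := κ)).symm (some a, τ) (some j) = some (τ j) := by
          simp only [Equiv.Perm.decomposeOption_symm_apply, Equiv.Perm.coe_mul,
            Function.comp_apply, Equiv.optionCongr_apply, Option.map_some]
          apply Equiv.swap_apply_of_ne_of_ne
          · simp
          · simpa using hj'
        rw [this, if_neg hj]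
        simp [bord]
    rw [Finset.sum_congr rfl (fun a _ => this a)]
    exact Equiv.sum_comp τ.symm (fun j0 => ∏ j, (if j = j0 then 1 else 1 + z (τ j) j))

/-- product polynomial -/
noncomputable def qp (w : κ → ℂ) : ℂ[X] := ∏ j, (1 + C (w j) * X)

theorem qp_eval (w : κ → ℂ) (t : ℂ) : (qp w).eval t = ∏ j, (1 + t * w j) := by
  unfold qp
  rw [eval_prod]
  refine Finset.prod_congr rfl (fun j _ => ?_)
  simp only [eval_add, eval_one, eval_mul, eval_C, eval_X]
  ring

omit [Fintype κ] in
theorem coeffs (w : κ → ℂ) (s : Finset κ) :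
    (∏ j ∈ s, (1 + C (w j) * X)).coeff 0 = 1 ∧
    (∏ j ∈ s, (1 + C (w j) * X)).coeff 1 = ∑ j ∈ s, w j ∧
    2 * (∏ j ∈ s, (1 + C (w j) * X)).coeff 2 = (∑ j ∈ s, w j) ^ 2 - ∑ j ∈ s, w j ^ 2 ∧
    6 * (∏ j ∈ s, (1 + C (w j) * X)).coeff 3 = (∑ j ∈ s, w j) ^ 3
      - 3 * (∑ j ∈ s, w j) * (∑ j ∈ s, w j ^ 2) + 2 * ∑ j ∈ s, w j ^ 3 := by
  induction s using Finset.induction_on with
  | empty => simp [coeff_one]
  | insert a s ha ih =>
    obtain ⟨i0, i1, i2, i3⟩ := ih
    rw [Finset.prod_insert ha, Finset.sum_insert ha, Finset.sum_insert ha, Finset.sum_insert ha]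
    set P := ∏ j ∈ s, (1 + C (w j) * X) with hP
    have e : (1 + C (w a) * X) * P = P + C (w a) * (X * P) := by ring
    rw [e]
    have c0 : (P + C (w a) * (X * P)).coeff 0 = P.coeff 0 := by simp
    have cs : ∀ n, (P + C (w a) * (X * P)).coeff (n + 1) = P.coeff (n + 1) + w a * P.coeff n := by
      intro n
      rw [coeff_add, coeff_C_mul, coeff_X_mul]
    refine ⟨by rw [c0, i0], ?_, ?_, ?_⟩
    · rw [cs 0, i0, i1]; ring
    · rw [cs 1, i1]
      linear_combination i2
    · rw [cs 2]
      linear_combination i3 + 3 * w a * i2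

/-- If the permanent vanishes on the line through the special zero in the direction of a
block matrix with zero row and column sums, then the second and third power sums vanish. -/
theorem power_sums (z : κ → κ → ℂ) (hr : ∀ i, ∑ j, z i j = 0) (hc : ∀ j, ∑ i, z i j = 0)
    (h : ∀ t : ℂ, (bord (t • z)).permanent = 0) :
    ∑ i, ∑ j, z i j ^ 2 = 0 ∧ ∑ i, ∑ j, z i j ^ 3 = 0 := by
  let Q : ℂ[X] := ∑ τ : Perm κ, qp (fun j => z (τ j) j)
  have hder : ∀ (w : κ → ℂ) (t : ℂ), -(Fintype.card κ : ℂ) * ∏ j, (1 + t * w j)
      + ∑ j0, ∏ j, (if j = j0 then 1 else 1 + t * w j) = - (t * (derivative (qp w)).eval t) := by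
    intro w t
    have e1 : derivative (qp w) = ∑ j0, (∏ j ∈ Finset.univ.erase j0, (1 + C (w j) * X)) * C (w j0) := by
      unfold qp
      rw [derivative_prod_finset]
      refine Finset.sum_congr rfl (fun j0 _ => ?_)
      congr 1
      simp
    rw [e1, eval_finsetSum, Finset.mul_sum, ← Finset.sum_neg_distrib]
    have e2 : -(Fintype.card κ : ℂ) * ∏ j, (1 + t * w j) = ∑ j0 : κ, - ∏ j, (1 + t * w j) := by
      rw [Finset.sum_const, Finset.card_univ, nsmul_eq_mul]; ring
    rw [e2, ← Finset.sum_add_distrib]
    refine Finset.sum_congr rfl (fun j0 _ => ?_)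
    have e3 : ∏ j, (if j = j0 then 1 else 1 + t * w j) = ∏ j ∈ Finset.univ.erase j0, (1 + t * w j) := by
      rw [← Finset.mul_prod_erase Finset.univ _ (Finset.mem_univ j0)]
      rw [if_pos rfl, one_mul]
      refine Finset.prod_congr rfl (fun j hj => ?_)
      rw [if_neg (Finset.ne_of_mem_erase hj)]
    rw [e3, ← Finset.mul_prod_erase Finset.univ (fun j => 1 + t * w j) (Finset.mem_univ j0),
      eval_mul, eval_prod, eval_C]
    have e4 : ∏ j ∈ Finset.univ.erase j0, eval t (1 + C (w j) * X)
        = ∏ j ∈ Finset.univ.erase j0, (1 + t * w j) :=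
      Finset.prod_congr rfl (fun j _ => by
        simp only [eval_add, eval_one, eval_mul, eval_C, eval_X]; ring)
    rw [e4]
    ring
  have hQ : X * derivative Q = 0 := by
    apply Polynomial.funext
    intro t
    have ht := h t
    rw [permanent_bord] at ht
    simp only [Pi.smul_apply, smul_eq_mul] at ht
    rw [Finset.sum_congr rfl (fun τ _ => hder (fun j => z (τ j) j) t), Finset.sum_neg_distrib,
      neg_eq_zero, ← Finset.mul_sum] at ht
    simp only [Q, eval_mul, eval_X, derivative_sum, eval_finsetSum, eval_zero]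
    exact ht
  have hQ' : derivative Q = 0 := by
    rcases mul_eq_zero.1 hQ with h0 | h0
    · exact absurd h0 X_ne_zero
    · exact h0
  have hcoef : ∀ n, Q.coeff (n + 1) = 0 := by
    intro n
    have := congrArg (fun P => P.coeff n) hQ'
    simp only [coeff_derivative, coeff_zero] at this
    rcases mul_eq_zero.1 this with h0 | h0
    · exact h0
    · exfalso
      have : ((n : ℂ) + 1) ≠ 0 := by exact_mod_cast Nat.succ_ne_zero n
      exact this h0
  constructor
  · apply second_sum z hr hc
    have h2 := hcoef 1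
    simp only [Q, finsetSum_coeff] at h2
    have : ∀ τ : Perm κ, (∑ j, z (τ j) j) ^ 2 - ∑ j, z (τ j) j ^ 2
        = 2 * (qp (fun j => z (τ j) j)).coeff (1 + 1) := by
      intro τ
      exact ((coeffs (fun j => z (τ j) j) Finset.univ).2.2.1).symm
    rw [Finset.sum_congr rfl (fun τ _ => this τ), ← Finset.mul_sum, h2, mul_zero]
  · apply third_sum z hr hc
    have h2 := hcoef 2
    simp only [Q, finsetSum_coeff] at h2
    have : ∀ τ : Perm κ, (∑ j, z (τ j) j) ^ 3 - 3 * (∑ j, z (τ j) j) * (∑ j, z (τ j) j ^ 2)
        + 2 * ∑ j, z (τ j) j ^ 3 = 6 * (qp (fun j => z (τ j) j)).coeff (2 + 1) := by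
      intro τ
      exact ((coeffs (fun j => z (τ j) j) Finset.univ).2.2.2).symm
    rw [Finset.sum_congr rfl (fun τ _ => this τ), ← Finset.mul_sum, h2, mul_zero]

/-- the special point is a zero of the permanent -/
theorem permanent_bord_zero : (bord (0 : κ → κ → ℂ)).permanent = 0 := by
  rw [permanent_bord]
  apply Finset.sum_eq_zero
  intro τ _
  simp

end Pool.Agent.Helper17.Border
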