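import Mathlib
import Pool.Agent.Helper17.KSLink1

set_option autoImplicit false

/-!
# Linear extensions and random order preserving maps, part 2

Moments of the number of elements below a level (hypergeometric distribution).
-/

namespace Pool.Agent.Helper17.KSLink

open Finset Pool.Agent.Helper23.KS Pool.Agent.Helper1.Balance

variable {n : ℕ}

/-! ### Counting sets containing given elements -/

theorem filter_mem_powersetCard {α : Type*} [DecidableEq α] {x : α} {S : Finset α} (hx : x ∉ S)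
    (m : ℕ) :
    (powersetCard (m + 1) (insert x S)).filter (fun T => x ∈ T) =
      (powersetCard m S).image (insert x) := by
  rw [powersetCard_succ_insert hx, filter_union]
  have h1 : (powersetCard (m + 1) S).filter (fun T => x ∈ T) = ∅ := by
    rw [filter_eq_empty_iff]
    intro T hT hxT
    exact hx ((mem_powersetCard.1 hT).1 hxT)
  have h2 : ((powersetCard m S).image (insert x)).filter (fun T => x ∈ T) =
      (powersetCard m S).image (insert x) := by
    rw [filter_eq_self]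
    intro T hT
    obtain ⟨T', -, rfl⟩ := mem_image.1 hT
    exact mem_insert_self _ _
  rw [h1, h2, empty_union]

theorem insert_injOn {α : Type*} [DecidableEq α] {x : α} {S : Finset α} (hx : x ∉ S) (m : ℕ) :
    Set.InjOn (insert x) (powersetCard m S : Set (Finset α)) := by
  intro T hT T' hT' h
  have h1 : x ∉ T := fun hh => hx ((mem_powersetCard.1 (mem_coe.1 hT)).1 hh)
  have h2 : x ∉ T' := fun hh => hx ((mem_powersetCard.1 (mem_coe.1 hT')).1 hh)
  rw [← erase_insert h1, ← erase_insert h2]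
  exact congrArg (fun s => s.erase x) h

theorem card_mem1 {α : Type*} [DecidableEq α] {x : α} {S : Finset α} (hx : x ∈ S) (m : ℕ) :
    ((powersetCard (m + 1) S).filter (fun T => x ∈ T)).card = (S.card - 1).choose m := by
  have h0 : insert x (S.erase x) = S := insert_erase hx
  have h1 : x ∉ S.erase x := notMem_erase x S
  have h2 := filter_mem_powersetCard h1 m
  rw [h0] at h2
  rw [h2, card_image_of_injOn (insert_injOn h1 m), card_powersetCard, card_erase_of_mem hx]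

theorem card_mem2 {α : Type*} [DecidableEq α] {x y : α} {S : Finset α} (hx : x ∈ S) (hy : y ∈ S)
    (hxy : x ≠ y) (m : ℕ) :
    ((powersetCard (m + 2) S).filter (fun T => x ∈ T ∧ y ∈ T)).card = (S.card - 2).choose m := by
  have h0 : insert x (S.erase x) = S := insert_erase hx
  have h1 : x ∉ S.erase x := notMem_erase x S
  have h2 := filter_mem_powersetCard h1 (m + 1)
  rw [h0] at h2
  have h3 : (powersetCard (m + 2) S).filter (fun T => x ∈ T ∧ y ∈ T) =
      ((powersetCard (m + 1) (S.erase x)).filter (fun T => y ∈ T)).image (insert x) := by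
    rw [← filter_filter, h2]
    ext T
    simp only [mem_filter, mem_image]
    constructor
    · rintro ⟨⟨T', hT', rfl⟩, hyT⟩
      refine ⟨T', ⟨hT', ?_⟩, rfl⟩
      rcases mem_insert.1 hyT with h | h
      · exact absurd h.symm hxy
      · exact h
    · rintro ⟨T', ⟨hT', hy'⟩, rfl⟩
      exact ⟨⟨T', hT', rfl⟩, mem_insert_of_mem hy'⟩
  have hy' : y ∈ S.erase x := mem_erase.2 ⟨hxy.symm, hy⟩
  rw [h3, card_image_of_injOn ((insert_injOn h1 (m + 1)).mono (by
    intro T hT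
    exact mem_coe.2 (mem_filter.1 (mem_coe.1 hT)).1)), card_mem1 hy' m, card_erase_of_mem hx]
  congr 1

/-! ### The number of elements below a level -/

open Classical in
/-- The number of elements below the level `u`. -/
noncomputable def cnt (f : Fin n → ℤ) (u : ℤ) : ℝ := ((univ.filter (fun q => f q < u)).card : ℝ)

open Classical in
theorem cnt_eq_sum (f : Fin n → ℤ) (u : ℤ) : cnt f u = ∑ q, if f q < u then (1 : ℝ) else 0 := by
  unfold cnt
  rw [Finset.sum_boole]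

theorem cnt_nonneg (f : Fin n → ℤ) (u : ℤ) : 0 ≤ cnt f u := by
  unfold cnt; positivity

theorem cnt_le (f : Fin n → ℤ) (u : ℤ) : cnt f u ≤ n := by
  classical
  unfold cnt
  have : (univ.filter (fun q => f q < u)).card ≤ n := by
    refine le_trans (card_filter_le _ _) ?_
    simp
  exact_mod_cast this

theorem cnt_enum {T : Finset ℤ} (h : T.card = n) (σ : Equiv.Perm (Fin n)) (u : ℤ) :
    cnt (fun q => enum T (σ q)) u = ((T.filter (fun x => x < u)).card : ℝ) := by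
  classical
  unfold cnt
  have : T.filter (fun x => x < u) =
      (univ.filter (fun q => enum T (σ q) < u)).image (fun q => enum T (σ q)) := by
    ext x
    simp only [mem_filter, mem_image, mem_univ, true_and]
    constructor
    · rintro ⟨hx, hxu⟩
      obtain ⟨k, hk⟩ := enum_surj h hx
      refine ⟨σ.symm k, ?_, ?_⟩
      · simp [hk, hxu]
      · simp [hk]
    · rintro ⟨q, hq, rfl⟩
      exact ⟨enum_mem h _, hq⟩
  rw [this, card_image_of_injective]
  intro a b hab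
  exact σ.injective (enum_inj h hab)

open Classical in
theorem sum_cdf (O : Finset (Fin n → ℤ)) (u : ℤ) :
    ∑ q, cdf O q u = av O (fun f => cnt f u) := by
  unfold cdf
  simp only [pr_eq_av, av]
  rw [← Finset.sum_div, Finset.sum_comm]
  congr 1
  refine Finset.sum_congr rfl fun f _ => ?_
  rw [cnt_eq_sum]
  refine Finset.sum_congr rfl fun q _ => ?_
  by_cases h : f q < u <;> simp [h]

open Classical in
theorem sum_pr2 (O : Finset (Fin n → ℤ)) (u : ℤ) :
    ∑ i, ∑ j, pr O (fun f => f i < u ∧ f j < u) = av O (fun f => (cnt f u) ^ 2) := by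
  simp only [pr_eq_av, av]
  rw [Finset.sum_congr rfl (fun i _ => (Finset.sum_div _ _ _).symm), ← Finset.sum_div]
  congr 1
  rw [Finset.sum_congr rfl (fun i _ => Finset.sum_comm), Finset.sum_comm]
  apply Finset.sum_congr rfl
  intro f _
  rw [cnt_eq_sum, sq, Finset.sum_mul_sum]
  apply Finset.sum_congr rfl
  intro i _
  apply Finset.sum_congr rfl
  intro j _
  by_cases h1 : f i < u <;> by_cases h2 : f j < u <;> simp [h1, h2]

theorem var_eq (O : Finset (Fin n → ℤ)) (u : ℤ) :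
    ∑ i, ∑ j, (pr O (fun f => f i < u ∧ f j < u) - cdf O i u * cdf O j u) =
      av O (fun f => (cnt f u) ^ 2) - (av O (fun f => cnt f u)) ^ 2 := by
  simp only [Finset.sum_sub_distrib]
  rw [sum_pr2, ← sum_cdf, sq, Finset.sum_mul_sum]

theorem av_OmI_cnt (r : Fin n → Fin n → Prop) (N : ℕ) (hN : 0 < (OmI r N).card) (u : ℤ)
    (g : ℝ → ℝ) :
    av (OmI r N) (fun f => g (cnt f u)) =
      (∑ T ∈ powersetCard n (Ico (0 : ℤ) N), g ((T.filter (fun x => x < u)).card : ℝ)) /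
        (N.choose n : ℝ) := by
  classical
  unfold av
  rw [sum_OmI, card_OmI]
  have h1 : ∀ σ ∈ LEf r, ∑ T ∈ powersetCard n (Ico (0 : ℤ) N),
      g (cnt (fun q => enum T (σ q)) u) = ∑ T ∈ powersetCard n (Ico (0 : ℤ) N),
        g ((T.filter (fun x => x < u)).card : ℝ) := by
    intro σ _
    apply Finset.sum_congr rfl
    intro T hT
    rw [cnt_enum (mem_powersetCard.1 hT).2]
  rw [Finset.sum_congr rfl h1, Finset.sum_const, nsmul_eq_mul]
  have h2 : (0 : ℝ) < (OmI r N).card := by exact_mod_cast hN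
  rw [card_OmI] at h2
  have h3 : (0 : ℝ) < (LEf r).card := by
    rcases (Nat.cast_nonneg (α := ℝ) (LEf r).card).lt_or_eq with h | h
    · exact h
    · rw [← h] at h2; simp at h2
  rw [mul_div_mul_left _ _ h3.ne']

theorem choose_id1 (N m : ℕ) (hN : 0 < N) :
    (N : ℝ) * ((N - 1).choose m : ℝ) = ((m + 1 : ℕ) : ℝ) * (N.choose (m + 1) : ℝ) := by
  obtain ⟨M, rfl⟩ : ∃ M, N = M + 1 := ⟨N - 1, by omega⟩
  have := Nat.add_one_mul_choose_eq M m
  simp only [Nat.add_sub_cancel]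
  rw [mul_comm ((m + 1 : ℕ) : ℝ)]
  exact_mod_cast this

theorem choose_id2 (N m : ℕ) (hN : 2 ≤ N) :
    (N : ℝ) * ((N : ℝ) - 1) * ((N - 2).choose m : ℝ) =
      ((m + 2 : ℕ) : ℝ) * ((m + 1 : ℕ) : ℝ) * (N.choose (m + 2) : ℝ) := by
  have h1 := choose_id1 N (m + 1) (by omega)
  have h2 := choose_id1 (N - 1) m (by omega)
  have h3 : ((N - 1 : ℕ) : ℝ) = (N : ℝ) - 1 := by
    rw [Nat.cast_sub (by omega)]; simp
  have h4 : N - 1 - 1 = N - 2 := by omega
  rw [h3, h4] at h2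
  have h5 : ((m + 1 + 1 : ℕ) : ℝ) = ((m + 2 : ℕ) : ℝ) := by push_cast; ring
  rw [h5] at h1
  calc (N : ℝ) * ((N : ℝ) - 1) * ((N - 2).choose m : ℝ)
      = (N : ℝ) * (((N : ℝ) - 1) * ((N - 2).choose m : ℝ)) := by ring
    _ = (N : ℝ) * (((m + 1 : ℕ) : ℝ) * ((N - 1).choose (m + 1) : ℝ)) := by rw [h2]
    _ = ((m + 1 : ℕ) : ℝ) * ((N : ℝ) * ((N - 1).choose (m + 1) : ℝ)) := by ring
    _ = ((m + 1 : ℕ) : ℝ) * (((m + 2 : ℕ) : ℝ) * (N.choose (m + 1 + 1) : ℝ)) := by rw [h1]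
    _ = _ := by ring

theorem filter_card_eq (T : Finset ℤ) (N : ℕ) (hT : T ⊆ Ico (0 : ℤ) N) (u : ℤ) :
    ((T.filter (fun x => x < u)).card : ℝ) = ∑ x ∈ Ico (0 : ℤ) u, if x ∈ T then (1 : ℝ) else 0 := by
  rw [Finset.sum_boole]
  congr 2
  ext x
  simp only [mem_filter, Finset.mem_Ico]
  constructor
  · rintro ⟨h1, h2⟩
    exact ⟨⟨(Finset.mem_Ico.1 (hT h1)).1, h2⟩, h1⟩
  · rintro ⟨⟨_, h2⟩, h3⟩
    exact ⟨h3, h2⟩

theorem mem_box {N k : ℕ} (hk : k ≤ N) {x : ℤ} (hx : x ∈ Ico (0 : ℤ) (k : ℤ)) :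
    x ∈ Ico (0 : ℤ) (N : ℤ) := by
  rw [Finset.mem_Ico] at hx ⊢
  exact ⟨hx.1, lt_of_lt_of_le hx.2 (by exact_mod_cast hk)⟩

theorem sum_T1 (m N k : ℕ) (hk : k ≤ N) :
    ∑ T ∈ powersetCard (m + 1) (Ico (0 : ℤ) N), ((T.filter (fun x => x < (k : ℤ))).card : ℝ) =
      (k : ℝ) * ((N - 1).choose m : ℝ) := by
  rw [Finset.sum_congr rfl (fun T hT => filter_card_eq T N (mem_powersetCard.1 hT).1 k),
    Finset.sum_comm]
  have : ∀ x ∈ Ico (0 : ℤ) (k : ℤ), ∑ T ∈ powersetCard (m + 1) (Ico (0 : ℤ) N),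
      (if x ∈ T then (1 : ℝ) else 0) = ((N - 1).choose m : ℝ) := by
    intro x hx
    rw [Finset.sum_boole, card_mem1 (mem_box hk hx) m]
    simp
  rw [Finset.sum_congr rfl this]
  simp

theorem sum_T2 (m N k : ℕ) (C1 C2 : ℝ)
    (h1 : ∀ x ∈ Ico (0 : ℤ) (k : ℤ), (((powersetCard (m + 1) (Ico (0 : ℤ) N)).filter
      (fun T => x ∈ T)).card : ℝ) = C1)
    (h2 : ∀ x ∈ Ico (0 : ℤ) (k : ℤ), ∀ y ∈ Ico (0 : ℤ) (k : ℤ), x ≠ y →
      (((powersetCard (m + 1) (Ico (0 : ℤ) N)).filter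
      (fun T => x ∈ T ∧ y ∈ T)).card : ℝ) = C2) :
    ∑ T ∈ powersetCard (m + 1) (Ico (0 : ℤ) N), ((T.filter (fun x => x < (k : ℤ))).card : ℝ) ^ 2 =
      (k : ℝ) * C1 + (k : ℝ) * ((k : ℝ) - 1) * C2 := by
  have e1 : ∀ T ∈ powersetCard (m + 1) (Ico (0 : ℤ) N),
      ((T.filter (fun x => x < (k : ℤ))).card : ℝ) ^ 2 =
        ∑ x ∈ Ico (0 : ℤ) k, ∑ y ∈ Ico (0 : ℤ) k, if x ∈ T ∧ y ∈ T then (1 : ℝ) else 0 := by
    intro T hT
    rw [filter_card_eq T N (mem_powersetCard.1 hT).1 k, sq, Finset.sum_mul_sum]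
    apply Finset.sum_congr rfl
    intro x _
    apply Finset.sum_congr rfl
    intro y _
    by_cases hx : x ∈ T <;> by_cases hy : y ∈ T <;> simp [hx, hy]
  rw [Finset.sum_congr rfl e1, Finset.sum_comm]
  have e2 : ∀ x ∈ Ico (0 : ℤ) (k : ℤ), ∑ T ∈ powersetCard (m + 1) (Ico (0 : ℤ) N),
      ∑ y ∈ Ico (0 : ℤ) k, (if x ∈ T ∧ y ∈ T then (1 : ℝ) else 0) = C1 + ((k : ℝ) - 1) * C2 := by
    intro x hx
    rw [Finset.sum_comm, ← Finset.add_sum_erase _ _ hx]
    have e3 : ∑ T ∈ powersetCard (m + 1) (Ico (0 : ℤ) N),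
        (if x ∈ T ∧ x ∈ T then (1 : ℝ) else 0) = C1 := by
      rw [Finset.sum_boole, ← h1 x hx]
      simp
    have e4 : ∀ y ∈ (Ico (0 : ℤ) (k : ℤ)).erase x, ∑ T ∈ powersetCard (m + 1) (Ico (0 : ℤ) N),
        (if x ∈ T ∧ y ∈ T then (1 : ℝ) else 0) = C2 := by
      intro y hy
      obtain ⟨hyx, hy'⟩ := mem_erase.1 hy
      rw [Finset.sum_boole, h2 x hx y hy' hyx.symm]
    rw [e3, Finset.sum_congr rfl e4, Finset.sum_const, nsmul_eq_mul, card_erase_of_mem hx]
    have hk1 : 1 ≤ k := by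
      rw [Finset.mem_Ico] at hx
      omega
    simp only [Int.card_Ico, sub_zero, Int.toNat_natCast]
    rw [Nat.cast_sub hk1]
    simp
  rw [Finset.sum_congr rfl e2]
  simp only [Finset.sum_const, Int.card_Ico, sub_zero, Int.toNat_natCast, nsmul_eq_mul]
  ring

theorem av1 (r : Fin n → Fin n → Prop) (hn : 0 < n) (N : ℕ) (hN : 0 < (OmI r N).card) (k : ℕ)
    (hk : k ≤ N) (hnN : n ≤ N) :
    av (OmI r N) (fun f => cnt f k) = (n : ℝ) / N * k := by
  obtain ⟨m, rfl⟩ : ∃ m, n = m + 1 := ⟨n - 1, by omega⟩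
  have h := av_OmI_cnt r N hN k (fun x => x)
  rw [h, sum_T1 m N k hk]
  have hc : (0 : ℝ) < (N.choose (m + 1) : ℝ) := by exact_mod_cast Nat.choose_pos hnN
  have hNr : (0 : ℝ) < N := by
    have : 0 < N := by omega
    exact_mod_cast this
  have := choose_id1 N m (by omega)
  rw [div_eq_iff hc.ne', div_mul_eq_mul_div, div_mul_eq_mul_div, eq_div_iff hNr.ne']
  calc (k : ℝ) * ((N - 1).choose m : ℝ) * N = k * (N * ((N - 1).choose m : ℝ)) := by ring
    _ = k * (((m + 1 : ℕ) : ℝ) * (N.choose (m + 1) : ℝ)) := by rw [this]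
    _ = _ := by ring

theorem av2 (r : Fin n → Fin n → Prop) (hn : 0 < n) (N : ℕ) (hN : 0 < (OmI r N).card) (k : ℕ)
    (hk : k ≤ N) (hnN : n ≤ N) :
    av (OmI r N) (fun f => (cnt f k) ^ 2) ≤ (n : ℝ) / N * k + ((n : ℝ) / N * k) ^ 2 := by
  obtain ⟨m, rfl⟩ : ∃ m, n = m + 1 := ⟨n - 1, by omega⟩
  have h := av_OmI_cnt r N hN k (fun x => x ^ 2)
  rw [h]
  have hc : (0 : ℝ) < (N.choose (m + 1) : ℝ) := by exact_mod_cast Nat.choose_pos hnN
  have hNr : (0 : ℝ) < N := by
    have : 0 < N := by omega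
    exact_mod_cast this
  have h1 : ∀ x ∈ Ico (0 : ℤ) (k : ℤ), (((powersetCard (m + 1) (Ico (0 : ℤ) N)).filter
      (fun T => x ∈ T)).card : ℝ) = ((N - 1).choose m : ℝ) := by
    intro x hx
    rw [card_mem1 (mem_box hk hx) m]
    simp
  -- the pair count
  obtain ⟨C2, hC2, hC2i, hC0⟩ : ∃ C2 : ℝ, (∀ x ∈ Ico (0 : ℤ) (k : ℤ), ∀ y ∈ Ico (0 : ℤ) (k : ℤ),
      x ≠ y → (((powersetCard (m + 1) (Ico (0 : ℤ) N)).filter
      (fun T => x ∈ T ∧ y ∈ T)).card : ℝ) = C2) ∧
      (N : ℝ) * ((N : ℝ) - 1) * C2 = ((m + 1 : ℕ) : ℝ) * (m : ℝ) * (N.choose (m + 1) : ℝ) ∧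
      (N = 1 → C2 = 0) := by
    cases m with
    | zero =>
      refine ⟨0, ?_, by simp, fun _ => rfl⟩
      intro x _ y _ hxy
      rw [Nat.cast_eq_zero, card_eq_zero, filter_eq_empty_iff]
      rintro T hT ⟨hx, hy⟩
      have := (mem_powersetCard.1 hT).2
      rw [zero_add, card_eq_one] at this
      obtain ⟨z, rfl⟩ := this
      rw [mem_singleton] at hx hy
      exact hxy (hx.trans hy.symm)
    | succ m =>
      refine ⟨((N - 2).choose m : ℝ), ?_, ?_, ?_⟩
      · intro x hx y hy hxy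
        rw [show m + 1 + 1 = m + 2 from rfl, card_mem2 (mem_box hk hx) (mem_box hk hy) hxy m]
        simp
      · have := choose_id2 N m (by omega)
        rw [this]
      · intro h1; omega
  rw [sum_T2 m N k _ C2 h1 hC2]
  have hid := choose_id1 N m (by omega)
  rw [div_le_iff₀ hc]
  set C := (N.choose (m + 1) : ℝ)
  set c1 := ((N - 1).choose m : ℝ)
  set a : ℝ := ((m + 1 : ℕ) : ℝ)
  have ha : a = m + 1 := by simp [a]
  have hfirst : (k : ℝ) * c1 = a / N * k * C := by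
    rw [div_mul_eq_mul_div, div_mul_eq_mul_div, eq_div_iff hNr.ne']
    calc (k : ℝ) * c1 * N = k * (N * c1) := by ring
      _ = k * (a * C) := by rw [hid]
      _ = _ := by ring
  have hkN : (k : ℝ) ≤ N := by exact_mod_cast hk
  have hk0 : (0 : ℝ) ≤ k := Nat.cast_nonneg k
  have hm0 : (0 : ℝ) ≤ m := Nat.cast_nonneg m
  have hsecond : (k : ℝ) * ((k : ℝ) - 1) * C2 ≤ (a / N * k) ^ 2 * C := by
    rcases Nat.lt_or_ge N 2 with hN2 | hN2
    · have hN1 : N = 1 := by omega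
      rw [hC0 hN1]
      have : 0 ≤ (a / N * k) ^ 2 * C := by positivity
      linarith
    · have hN2r : (2 : ℝ) ≤ N := by exact_mod_cast hN2
      have hNN : (0 : ℝ) < (N : ℝ) ^ 2 * ((N : ℝ) - 1) := by
        apply mul_pos (by positivity); linarith
      have key : (k : ℝ) * ((k : ℝ) - 1) * C2 * ((N : ℝ) ^ 2 * ((N : ℝ) - 1)) ≤
          (a / N * k) ^ 2 * C * ((N : ℝ) ^ 2 * ((N : ℝ) - 1)) := by
        have e1 : (k : ℝ) * ((k : ℝ) - 1) * C2 * ((N : ℝ) ^ 2 * ((N : ℝ) - 1)) =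
            (k : ℝ) * ((k : ℝ) - 1) * N * (a * m * C) := by
          rw [← hC2i]; ring
        have e2 : (a / N * k) ^ 2 * C * ((N : ℝ) ^ 2 * ((N : ℝ) - 1)) =
            (a ^ 2 * k ^ 2 * C) * ((N : ℝ) - 1) := by
          field_simp
        rw [e1, e2]
        have e3 : 0 ≤ ((k : ℝ) + m) * N - k * a := by
          rw [ha]
          have h5 : ((k : ℝ) + m) * k ≤ ((k : ℝ) + m) * N := by
            apply mul_le_mul_of_nonneg_left hkN; positivity
          have h6 : 0 ≤ (k : ℝ) * ((k : ℝ) - 1) := by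
            rcases Nat.eq_zero_or_pos k with h | h
            · rw [h]; simp
            · have : (1 : ℝ) ≤ k := by exact_mod_cast h
              apply mul_nonneg hk0; linarith
          nlinarith
        have e4 : (a ^ 2 * k ^ 2 * C) * ((N : ℝ) - 1) - (k : ℝ) * ((k : ℝ) - 1) * N * (a * m * C) =
            (a * k * C) * (((k : ℝ) + m) * N - k * a) := by
          rw [ha]; ring
        have e5 : 0 ≤ (a * k * C) * (((k : ℝ) + m) * N - k * a) :=
          mul_nonneg (by positivity) e3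
        linarith
      exact le_of_mul_le_mul_right key hNN
  rw [hfirst]
  linarith

end Pool.Agent.Helper17.KSLink
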