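import Mathlib
import Pool.Agent.Helper17.KSLink2

set_option autoImplicit false

/-!
# Linear extensions and random order preserving maps, part 3

The statements used by the main argument: `om_nonempty`, `om_moments`, `om_unb`, `om_first`.
-/

namespace Pool.Agent.Helper17.KSLink

open Finset Pool.Agent.Helper23.KS Pool.Agent.Helper1.Balance

variable {n : ℕ}

theorem om_nonempty (r : Fin n → Fin n → Prop) (N : ℕ) (hN : 0 < N) : (Om r N).Nonempty := by
  refine ⟨fun _ => 0, ?_⟩
  rw [mem_Om]
  refine ⟨fun q => ⟨le_refl _, ?_⟩, fun i j _ => le_refl _⟩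
  exact_mod_cast hN

theorem om_range (r : Fin n → Fin n → Prop) (N : ℕ) :
    ∀ f ∈ Om r N, ∀ q, 0 ≤ f q ∧ f q < N := fun _ hf => (mem_Om.1 hf).1

theorem cnt_nonpos (f : Fin n → ℤ) (hf : ∀ q, 0 ≤ f q) (u : ℤ) (hu : u ≤ 0) : cnt f u = 0 := by
  classical
  unfold cnt
  rw [Nat.cast_eq_zero, card_eq_zero, filter_eq_empty_iff]
  intro q _ h
  have := hf q
  omega

theorem cnt_large (f : Fin n → ℤ) (N : ℕ) (hf : ∀ q, f q < N) (u : ℤ) (hu : (N : ℤ) ≤ u) :
    cnt f u = n := by
  classical
  unfold cnt
  rw [filter_true_of_mem]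
  · simp
  · intro q _
    exact lt_of_lt_of_le (hf q) hu

theorem av_congr {α : Type*} (O : Finset α) (s t : α → ℝ) (h : ∀ x ∈ O, s x = t x) :
    av O s = av O t := by
  unfold av
  rw [Finset.sum_congr rfl h]

theorem pr_eq_av' {α : Type*} (O : Finset α) (p : α → Prop) [DecidablePred p] :
    pr O p = av O (fun x => if p x then (1 : ℝ) else 0) := by
  rw [pr_eq_av]
  apply av_congr
  intro x _
  by_cases h : p x <;> simp [h]

theorem av_const {α : Type*} (O : Finset α) (hO : O.Nonempty) (c : ℝ) :
    av O (fun _ => c) = c := by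
  unfold av
  have : (0 : ℝ) < O.card := by exact_mod_cast card_pos.2 hO
  rw [Finset.sum_const, nsmul_eq_mul, mul_div_cancel_left₀ _ this.ne']

theorem av_nonneg {α : Type*} (O : Finset α) (s : α → ℝ) (h : ∀ x ∈ O, 0 ≤ s x) :
    0 ≤ av O s := by
  unfold av
  exact div_nonneg (Finset.sum_nonneg h) (Nat.cast_nonneg _)

theorem av_le {α : Type*} (O : Finset α) (hO : O.Nonempty) (s : α → ℝ) (B : ℝ)
    (h : ∀ x ∈ O, s x ≤ B) : av O s ≤ B := by
  have h1 : (0 : ℝ) < O.card := by exact_mod_cast card_pos.2 hO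
  unfold av
  rw [div_le_iff₀ h1]
  refine le_trans (Finset.sum_le_sum h) ?_
  rw [Finset.sum_const, nsmul_eq_mul]
  linarith [mul_comm (O.card : ℝ) B]

theorem om_moments (hn : 0 < n) (r : Fin n → Fin n → Prop) (hr : IsPoset r) (e : ℝ)
    (he : 0 < e) : ∃ N0 : ℕ, ∀ N : ℕ, N0 ≤ N →
    (∀ u : ℤ, 0 ≤ u → ∑ q, cdf (Om r N) q u ≤ (n : ℝ) / N * u + e) ∧
    (∀ u : ℤ, u ≤ N → (n : ℝ) / N * u - e ≤ ∑ q, cdf (Om r N) q u) ∧
    (∀ u : ℤ, 0 ≤ u → ∑ i, ∑ j, (pr (Om r N) (fun f => f i < u ∧ f j < u)
      - cdf (Om r N) i u * cdf (Om r N) j u) ≤ (n : ℝ) / N * u + e) := by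
  have hnr : (1 : ℝ) ≤ n := by exact_mod_cast hn
  obtain ⟨N0, hN0, hN⟩ := exists_tie hn hr (e / (3 * (n : ℝ) ^ 2)) (by positivity)
  refine ⟨N0, ?_⟩
  intro N hNN
  obtain ⟨hI, hτ⟩ := hN N hNN
  have hnN : n ≤ N := le_trans hN0 hNN
  have hNr : (0 : ℝ) < N := by
    have : 0 < N := by omega
    exact_mod_cast this
  set τ := e / (3 * (n : ℝ) ^ 2) with hτdef
  have hτpos : 0 < τ := by positivity
  have hτn2 : τ * (n : ℝ) ^ 2 = e / 3 := by
    rw [hτdef]; field_simp
  have hτn : τ * n ≤ e / 3 := by
    rw [← hτn2, sq]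
    have : τ * n * 1 ≤ τ * n * n := mul_le_mul_of_nonneg_left hnr (by positivity)
    linarith
  have hne : (Om r N).Nonempty := om_nonempty r N (by omega)
  have hneI : (OmI r N).Nonempty := card_pos.1 hI
  -- transfer of the two statistics
  have t1 : ∀ u : ℤ, |av (Om r N) (fun f => cnt f u) - av (OmI r N) (fun f => cnt f u)| ≤ τ * n :=
    fun u => transfer _ _ (OmI_subset r N) hI τ n hτ _ (fun f _ => cnt_nonneg f u)
      (fun f _ => cnt_le f u)
  have t2 : ∀ u : ℤ, |av (Om r N) (fun f => (cnt f u) ^ 2)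
      - av (OmI r N) (fun f => (cnt f u) ^ 2)| ≤ τ * (n : ℝ) ^ 2 :=
    fun u => transfer _ _ (OmI_subset r N) hI τ ((n : ℝ) ^ 2) hτ _ (fun f _ => sq_nonneg _)
      (fun f _ => pow_le_pow_left₀ (cnt_nonneg f u) (cnt_le f u) 2)
  have hrg := om_range r N
  refine ⟨?_, ?_, ?_⟩
  · intro u hu
    rw [sum_cdf]
    rcases le_total u (N : ℤ) with huN | huN
    · obtain ⟨k, rfl⟩ := Int.eq_ofNat_of_zero_le hu
      have hk : k ≤ N := by exact_mod_cast huN
      have h1 := (abs_le.1 (t1 (k : ℤ))).2
      rw [av1 r hn N hI k hk hnN] at h1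
      push_cast at h1 ⊢
      linarith
    · rw [av_congr _ _ (fun _ => (n : ℝ)) (fun f hf => cnt_large f N (fun q => (hrg f hf q).2) u huN),
        av_const _ hne]
      have : (N : ℝ) ≤ u := by exact_mod_cast huN
      have h2 : (n : ℝ) / N * N ≤ (n : ℝ) / N * u := mul_le_mul_of_nonneg_left this (by positivity)
      rw [div_mul_cancel₀ _ hNr.ne'] at h2
      linarith
  · intro u hu
    rw [sum_cdf]
    rcases le_total 0 u with hu0 | hu0
    · obtain ⟨k, rfl⟩ := Int.eq_ofNat_of_zero_le hu0
      have hk : k ≤ N := by exact_mod_cast hu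
      have h1 := (abs_le.1 (t1 (k : ℤ))).1
      rw [av1 r hn N hI k hk hnN] at h1
      push_cast at h1 ⊢
      linarith
    · have h1 : (0 : ℝ) ≤ av (Om r N) (fun f => cnt f u) := av_nonneg _ _ (fun f _ => cnt_nonneg f u)
      have h2 : (u : ℝ) ≤ 0 := by exact_mod_cast hu0
      have h3 : (n : ℝ) / N * u ≤ 0 := mul_nonpos_of_nonneg_of_nonpos (by positivity) h2
      linarith
  · intro u hu
    rw [var_eq]
    rcases le_total u (N : ℤ) with huN | huN
    · obtain ⟨k, rfl⟩ := Int.eq_ofNat_of_zero_le hu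
      have hk : k ≤ N := by exact_mod_cast huN
      have h1 := abs_le.1 (t1 (k : ℤ))
      have h2 := (abs_le.1 (t2 (k : ℤ))).2
      have h3 := av2 r hn N hI k hk hnN
      have h4 := av1 r hn N hI k hk hnN
      rw [h4] at h1
      have hA0 : 0 ≤ av (Om r N) (fun f => cnt f (k : ℤ)) := av_nonneg _ _ (fun f _ => cnt_nonneg f _)
      have hAn : av (Om r N) (fun f => cnt f (k : ℤ)) ≤ n := av_le _ hne _ _ (fun f _ => cnt_le f _)
      have hB0 : 0 ≤ (n : ℝ) / N * k := by positivity
      have hBn : (n : ℝ) / N * k ≤ n := by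
        rw [← h4]; exact av_le _ hneI _ _ (fun f _ => cnt_le f _)
      set A := av (Om r N) (fun f => cnt f (k : ℤ))
      set B := (n : ℝ) / N * k
      have h5 : B ^ 2 - A ^ 2 ≤ τ * n * (2 * n) := by
        have h6 : B ^ 2 - A ^ 2 = (B - A) * (B + A) := by ring
        rw [h6]
        rcases le_total B A with hBA | hBA
        · have : (B - A) * (B + A) ≤ 0 :=
            mul_nonpos_of_nonpos_of_nonneg (by linarith) (by linarith)
          have h7 : 0 ≤ τ * n * (2 * n) := by positivity
          linarith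
        · exact mul_le_mul (by linarith [h1.1]) (by linarith) (by linarith) (by positivity)
      have h8 : τ * n * (2 * n) = 2 * (τ * (n : ℝ) ^ 2) := by ring
      rw [h8, hτn2] at h5
      rw [hτn2] at h2
      push_cast
      have h9 : av (OmI r N) (fun f => (cnt f (k : ℤ)) ^ 2) ≤ B + B ^ 2 := h3
      show _ ≤ B + e
      linarith
    · rw [av_congr _ _ (fun _ => (n : ℝ)) (fun f hf => cnt_large f N (fun q => (hrg f hf q).2) u huN),
        av_congr _ (fun f => (cnt f u) ^ 2) (fun _ => (n : ℝ) ^ 2)
          (fun f hf => by rw [cnt_large f N (fun q => (hrg f hf q).2) u huN]),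
        av_const _ hne, av_const _ hne]
      have h1 : (0 : ℝ) ≤ u := by exact_mod_cast hu
      have : 0 ≤ (n : ℝ) / N * u := by positivity
      linarith

/-! ### Unbalanced pairs -/

theorem prob_le_one (r : Fin n → Fin n → Prop) (x y : Fin n) : prob r x y ≤ 1 := by
  classical
  rw [prob_eq]
  apply div_le_one_of_le₀
  · exact_mod_cast card_filter_le _ _
  · positivity

theorem prob_nonneg (r : Fin n → Fin n → Prop) (x y : Fin n) : 0 ≤ prob r x y := by
  classical
  rw [prob_eq]
  positivity

theorem balance_nonneg (r : Fin n → Fin n → Prop) : 0 ≤ balance r := by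
  unfold balance
  apply Real.sSup_nonneg
  rintro t ⟨x, y, _, _, rfl⟩
  exact le_min (prob_nonneg r x y) (prob_nonneg r y x)

theorem min_le_balance (r : Fin n → Fin n → Prop) (x y : Fin n) (h1 : ¬ r x y) (h2 : ¬ r y x) :
    min (prob r x y) (prob r y x) ≤ balance r := by
  unfold balance
  apply le_csSup
  · refine ⟨1, ?_⟩
    rintro t ⟨a, b, _, _, rfl⟩
    exact le_trans (min_le_left _ _) (prob_le_one r a b)
  · exact ⟨x, y, h1, h2, rfl⟩

theorem pr_OmI (r : Fin n → Fin n → Prop) (N : ℕ) (hI : 0 < (OmI r N).card) (i j : Fin n) :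
    pr (OmI r N) (fun f => f i < f j) = prob r i j := by
  rw [pr_eq_av', prob_eq]
  unfold av
  rw [sum_OmI, card_OmI]
  beta_reduce
  have h2 : (0 : ℝ) < (OmI r N).card := by exact_mod_cast hI
  rw [card_OmI] at h2
  have hc : (0 : ℝ) < (N.choose n : ℝ) := by
    rcases (Nat.cast_nonneg (α := ℝ) (N.choose n)).lt_or_eq with h | h
    · exact h
    · rw [← h] at h2; simp at h2
  have h1 : ∀ σ ∈ LEf r, ∑ T ∈ powersetCard n (Ico (0 : ℤ) N),
      (if enum T (σ i) < enum T (σ j) then (1 : ℝ) else 0) =
      (if σ i < σ j then (1 : ℝ) else 0) * (N.choose n : ℝ) := by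
    intro σ _
    have h3 : ∀ T ∈ powersetCard n (Ico (0 : ℤ) N),
        (if enum T (σ i) < enum T (σ j) then (1 : ℝ) else 0) = if σ i < σ j then (1 : ℝ) else 0 := by
      intro T hT
      have := enum_lt (mem_powersetCard.1 hT).2 (σ i) (σ j)
      by_cases h : σ i < σ j
      · simp [h, this.2 h]
      · have h' : ¬ enum T (σ i) < enum T (σ j) := fun hh => h (this.1 hh)
        simp [h, h']
    rw [Finset.sum_congr rfl h3, Finset.sum_const, nsmul_eq_mul, mul_comm, card_powersetCard]
    simp
  rw [Finset.sum_congr rfl h1, ← Finset.sum_mul, Finset.sum_boole, mul_div_mul_right _ _ hc.ne']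

theorem om_unb (hn : 0 < n) (r : Fin n → Fin n → Prop) (hr : IsPoset r) (g : ℝ) (hg : 0 < g)
    (hb : balance r ≤ 1 / 2 - 2 * g) : ∃ N0 : ℕ, ∀ N : ℕ, N0 ≤ N → ∀ i j : Fin n, i ≠ j →
    pr (Om r N) (fun f => f i < f j) ≤ 1 / 2 - g ∨ pr (Om r N) (fun f => f j < f i) ≤ 1 / 2 - g := by
  classical
  obtain ⟨N0, hN0, hN⟩ := exists_tie hn hr g hg
  refine ⟨N0, ?_⟩
  intro N hNN i j hij
  obtain ⟨hI, hτ⟩ := hN N hNN
  have hnN : n ≤ N := le_trans hN0 hNN
  have hb0 := balance_nonneg r
  have hg1 : 0 ≤ 1 / 2 - g := by linarith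
  have tr : ∀ a b : Fin n, pr (Om r N) (fun f => f a < f b) ≤ prob r a b + g := by
    intro a b
    have h := transfer _ _ (OmI_subset r N) hI g 1 hτ
      (fun f : Fin n → ℤ => if f a < f b then (1 : ℝ) else 0)
      (fun f _ => by positivity) (fun f _ => by split_ifs <;> norm_num)
    have h2 := (abs_le.1 h).2
    have e1 : pr (Om r N) (fun f => f a < f b) =
        av (Om r N) (fun f : Fin n → ℤ => if f a < f b then (1 : ℝ) else 0) := by
      rw [pr_eq_av]
      apply av_congr
      intro f _
      by_cases h : f a < f b <;> simp [h]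
    have e2 : pr (OmI r N) (fun f => f a < f b) =
        av (OmI r N) (fun f : Fin n → ℤ => if f a < f b then (1 : ℝ) else 0) := by
      rw [pr_eq_av]
      apply av_congr
      intro f _
      by_cases h : f a < f b <;> simp [h]
    rw [← e1, ← e2, pr_OmI r N hI] at h2
    linarith
  have zer : ∀ a b : Fin n, r a b → pr (Om r N) (fun f => f b < f a) ≤ 1 / 2 - g := by
    intro a b hab
    unfold pr
    have : (Om r N).filter (fun f => f b < f a) = ∅ := by
      rw [filter_eq_empty_iff]
      intro f hf h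
      have := (mem_Om.1 hf).2 a b hab
      omega
    have h2 : ((Om r N).filter (fun f => f b < f a)).card = 0 := by rw [this]; rfl
    convert hg1 using 1
    rw [div_eq_zero_iff]
    left
    exact_mod_cast (by convert h2)
  by_cases h1 : r i j
  · right; exact zer i j h1
  by_cases h2 : r j i
  · left; exact zer j i h2
  have h3 := le_trans (min_le_balance r i j h1 h2) hb
  rcases min_le_iff.1 h3 with h | h
  · left; linarith [tr i j]
  · right; linarith [tr j i]

/-! ### Minimal elements -/

/-- The probability that `y` is the first element of a random linear extension. -/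
noncomputable def firstProb (r : Fin n → Fin n → Prop) (y : Fin n) : ℝ :=
  (Nat.card {σ : Equiv.Perm (Fin n) // (∀ a b, r a b → σ a ≤ σ b) ∧ ∀ z, σ y ≤ σ z} : ℝ) /
    (Nat.card {σ : Equiv.Perm (Fin n) // ∀ a b, r a b → σ a ≤ σ b} : ℝ)

open Classical in
theorem firstProb_eq (r : Fin n → Fin n → Prop) (y : Fin n) :
    firstProb r y = (((LEf r).filter (fun σ => ∀ z, σ y ≤ σ z)).card : ℝ) / ((LEf r).card : ℝ) := by
  unfold firstProb
  rw [Nat.card_eq_fintype_card, Nat.card_eq_fintype_card, Fintype.card_subtype,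
    Fintype.card_subtype]
  congr 2
  congr 1
  ext σ
  simp [LEf]

theorem cycleRange_zero_le (k : Fin n) (x : Fin n) : k.cycleRange k ≤ x := by
  have hn : 0 < n := lt_of_le_of_lt (Nat.zero_le _) k.2
  have : NeZero n := ⟨by omega⟩
  rw [Fin.cycleRange_self]
  exact Fin.zero_le x

theorem cycleRange_mono (k : Fin n) (x z : Fin n) (hx : x ≠ k) (hz : z ≠ k) (h : x ≤ z) :
    k.cycleRange x ≤ k.cycleRange z := by
  have hx' : x < k ∨ k < x := lt_or_gt_of_ne hx
  have hz' : z < k ∨ k < z := lt_or_gt_of_ne hz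
  rw [Fin.le_def]
  rcases hx' with hx' | hx' <;> rcases hz' with hz' | hz'
  · rw [Fin.coe_cycleRange_of_lt hx', Fin.coe_cycleRange_of_lt hz']
    have := Fin.le_def.1 h
    omega
  · rw [Fin.coe_cycleRange_of_lt hx', Fin.cycleRange_of_gt hz']
    have := Fin.lt_def.1 hx'
    have := Fin.lt_def.1 hz'
    omega
  · have := Fin.le_def.1 h
    have := Fin.lt_def.1 hx'
    have := Fin.lt_def.1 hz'
    omega
  · rw [Fin.cycleRange_of_gt hx', Fin.cycleRange_of_gt hz']
    exact Fin.le_def.1 h

open Classical in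
/-- For a minimal element every position is at most as likely as the first one. -/
theorem card_rank_le (r : Fin n → Fin n → Prop) (y : Fin n) (hy : ∀ z, r z y → z = y)
    (k : Fin n) : ((LEf r).filter (fun σ => σ y = k)).card ≤
      ((LEf r).filter (fun σ => ∀ z, σ y ≤ σ z)).card := by
  refine card_le_card_of_injOn (fun σ => σ.trans k.cycleRange) ?_ ?_
  · intro σ hσ
    obtain ⟨hσ1, hσ2⟩ := mem_filter.1 (mem_coe.1 hσ)
    rw [mem_LEf] at hσ1
    rw [mem_coe, mem_filter, mem_LEf]
    have hyk : k.cycleRange (σ y) = k.cycleRange k := by rw [hσ2]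
    refine ⟨?_, ?_⟩
    · intro a b hab
      simp only [Equiv.trans_apply]
      by_cases ha : a = y
      · subst ha
        rw [hyk]
        exact cycleRange_zero_le k _
      · by_cases hb : b = y
        · subst hb
          exact absurd (hy a hab) ha
        · apply cycleRange_mono k _ _ _ _ (hσ1 a b hab)
          · rw [← hσ2]; exact fun h => ha (σ.injective h)
          · rw [← hσ2]; exact fun h => hb (σ.injective h)
    · intro z
      simp only [Equiv.trans_apply]
      rw [hyk]
      exact cycleRange_zero_le k _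
  · intro σ _ σ' _ h
    ext q
    have := congrArg (fun e : Equiv.Perm (Fin n) => e q) h
    simp only [Equiv.trans_apply] at this
    rw [k.cycleRange.injective this]

open Classical in
theorem pr_first_OmI (r : Fin n → Fin n → Prop) (N : ℕ) (hI : 0 < (OmI r N).card) (y : Fin n)
    (hy : ∀ z, r z y → z = y) (u : ℤ) :
    cdf (OmI r N) y u ≤ firstProb r y * av (OmI r N) (fun f => cnt f u) := by
  have h2 : (0 : ℝ) < (OmI r N).card := by exact_mod_cast hI
  rw [card_OmI] at h2
  have hc : (0 : ℝ) < (N.choose n : ℝ) := by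
    rcases (Nat.cast_nonneg (α := ℝ) (N.choose n)).lt_or_eq with h | h
    · exact h
    · rw [← h] at h2; simp at h2
  have hL : (0 : ℝ) < (LEf r).card := by
    rcases (Nat.cast_nonneg (α := ℝ) (LEf r).card).lt_or_eq with h | h
    · exact h
    · rw [← h] at h2; simp at h2
  have hav := av_OmI_cnt r N hI u (fun x => x)
  rw [hav, firstProb_eq]
  unfold cdf
  rw [pr_eq_av']
  unfold av
  rw [sum_OmI, card_OmI, div_mul_div_comm]
  beta_reduce
  apply div_le_div_of_nonneg_right _ (by positivity)
  -- swap the sums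
  rw [Finset.sum_comm, Finset.mul_sum]
  apply Finset.sum_le_sum
  intro T hT
  have hTc := (mem_powersetCard.1 hT).2
  -- sum over sigma, grouped by the position of y
  have h3 : ∑ σ ∈ LEf r, (if enum T (σ y) < u then (1 : ℝ) else 0) =
      ∑ k : Fin n, ∑ σ ∈ (LEf r).filter (fun σ => σ y = k),
        (if enum T (σ y) < u then (1 : ℝ) else 0) := by
    rw [Finset.sum_fiberwise]
  have h4 : ∀ k : Fin n, ∑ σ ∈ (LEf r).filter (fun σ => σ y = k),
      (if enum T (σ y) < u then (1 : ℝ) else 0) =
      (((LEf r).filter (fun σ => σ y = k)).card : ℝ) * (if enum T k < u then (1 : ℝ) else 0) := by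
    intro k
    rw [← nsmul_eq_mul, ← Finset.sum_const]
    apply Finset.sum_congr rfl
    intro σ hσ
    rw [(mem_filter.1 hσ).2]
  have h5 : ((T.filter (fun x => x < u)).card : ℝ) = ∑ k : Fin n, if enum T k < u then (1 : ℝ) else 0 := by
    have := cnt_enum hTc 1 u
    rw [← this, cnt_eq_sum]
    refine Finset.sum_congr rfl fun k _ => ?_
    simp only [Equiv.Perm.coe_one, id]
    by_cases h : enum T k < u <;> simp [h]
  rw [h3, h5, Finset.mul_sum]
  apply Finset.sum_le_sum
  intro k _
  rw [h4 k]
  apply mul_le_mul_of_nonneg_right _ (by positivity)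
  exact_mod_cast card_rank_le r y hy k

/-- The mass function of a minimal element is nonincreasing. -/
theorem pmf_anti (r : Fin n → Fin n → Prop) (N : ℕ) (y : Fin n) (hy : ∀ z, r z y → z = y)
    (k l : ℤ) (hk : 0 ≤ k) (hkl : k ≤ l) :
    ((Om r N).filter (fun f => f y = l)).card ≤ ((Om r N).filter (fun f => f y = k)).card := by
  refine card_le_card_of_injOn (fun f => Function.update f y k) ?_ ?_
  · intro f hf
    obtain ⟨hf1, hf2⟩ := mem_filter.1 (mem_coe.1 hf)
    rw [mem_Om] at hf1
    rw [mem_coe, mem_filter, mem_Om]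
    refine ⟨⟨?_, ?_⟩, by simp⟩
    · intro q
      show 0 ≤ Function.update f y k q ∧ Function.update f y k q < (N : ℤ)
      by_cases hq : q = y
      · subst hq
        rw [Function.update_self]
        have := (hf1.1 q).2
        omega
      · rw [Function.update_of_ne hq]
        exact hf1.1 q
    · intro i j hij
      show Function.update f y k i ≤ Function.update f y k j
      by_cases hi : i = y
      · subst hi
        rw [Function.update_self]
        by_cases hj : j = i
        · subst hj
          rw [Function.update_self]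
        · rw [Function.update_of_ne hj]
          have := hf1.2 i j hij
          omega
      · by_cases hj : j = y
        · subst hj
          exact absurd (hy i hij) hi
        · rw [Function.update_of_ne hi, Function.update_of_ne hj]
          exact hf1.2 i j hij
  · intro f hf g hg hfg
    have hf2 := (mem_filter.1 (mem_coe.1 hf)).2
    have hg2 := (mem_filter.1 (mem_coe.1 hg)).2
    funext q
    by_cases hq : q = y
    · subst hq
      rw [hf2, hg2]
    · have := congrFun hfg q
      simp only [Function.update_of_ne hq] at this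
      exact this

theorem cdf_succ (O : Finset (Fin n → ℤ)) (y : Fin n) (b : ℤ) :
    cdf O y (b + 1) = cdf O y b + ((O.filter (fun f => f y = b)).card : ℝ) / O.card := by
  unfold cdf
  rw [pr_eq_av', pr_eq_av']
  unfold av
  rw [← add_div, ← Finset.sum_boole, ← Finset.sum_add_distrib]
  congr 1
  refine Finset.sum_congr rfl fun f _ => ?_
  rcases lt_trichotomy (f y) b with h | h | h
  · have h1 : f y < b + 1 := by omega
    have h2 : ¬ f y = b := by omega
    simp [h, h1, h2]
  · have h1 : f y < b + 1 := by omega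
    have h2 : ¬ f y < b := by omega
    simp [h]
  · have h1 : ¬ f y < b + 1 := by omega
    have h2 : ¬ f y < b := by omega
    have h3 : ¬ f y = b := by omega
    simp [h1, h2, h3]

theorem om_first_ratio (r : Fin n → Fin n → Prop) (N : ℕ) (y : Fin n) (hy : ∀ z, r z y → z = y)
    (a b : ℤ) (ha : 0 ≤ a) (hab : a ≤ b) :
    (a : ℝ) * cdf (Om r N) y b ≤ (b : ℝ) * cdf (Om r N) y a := by
  classical
  -- a * p(b) <= F(a) for b >= a
  have key : ∀ b : ℤ, a ≤ b → (a : ℝ) * (((Om r N).filter (fun f => f y = b)).card /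
      ((Om r N).card : ℝ)) ≤ cdf (Om r N) y a := by
    intro b hb
    have h : ∀ c : ℤ, 0 ≤ c → c ≤ b → (c : ℝ) * (((Om r N).filter (fun f => f y = b)).card /
      ((Om r N).card : ℝ)) ≤ cdf (Om r N) y c := by
      intro c hc
      induction c, hc using Int.leInduction with
      | base =>
        intro _
        simp only [Int.cast_zero, zero_mul]
        unfold cdf pr
        positivity
      | succ c hc ih =>
        intro hcb
        rw [cdf_succ]
        have h1 := ih (by omega)
        have h2 : (((Om r N).filter (fun f => f y = b)).card : ℝ) ≤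
            ((Om r N).filter (fun f => f y = c)).card := by
          exact_mod_cast pmf_anti r N y hy c b hc (by omega)
        have h3 : (((Om r N).filter (fun f => f y = b)).card : ℝ) / ((Om r N).card : ℝ) ≤
            (((Om r N).filter (fun f => f y = c)).card : ℝ) / ((Om r N).card : ℝ) :=
          div_le_div_of_nonneg_right h2 (by positivity)
        push_cast
        linarith
    exact h a ha hb
  induction b, hab using Int.leInduction with
  | base => exact le_refl _
  | succ b hb ih =>
    rw [cdf_succ]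
    have := key b hb
    push_cast
    linarith

theorem om_first (hn : 0 < n) (r : Fin n → Fin n → Prop) (hr : IsPoset r) (y : Fin n)
    (hy : ∀ z, r z y → z = y) (e : ℝ) (he : 0 < e) : ∃ N0 : ℕ, ∀ N : ℕ, N0 ≤ N →
    (∀ a b : ℤ, 0 ≤ a → a ≤ b → (a : ℝ) * cdf (Om r N) y b ≤ (b : ℝ) * cdf (Om r N) y a) ∧
    (∀ u : ℤ, 0 ≤ u → cdf (Om r N) y u ≤ firstProb r y * ((n : ℝ) / N * u) + e) := by
  classical
  obtain ⟨N0, hN0, hN⟩ := exists_tie hn hr e he
  refine ⟨N0, ?_⟩
  intro N hNN
  obtain ⟨hI, hτ⟩ := hN N hNN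
  have hnN : n ≤ N := le_trans hN0 hNN
  have hNr : (0 : ℝ) < N := by
    have : 0 < N := by omega
    exact_mod_cast this
  refine ⟨fun a b ha hab => om_first_ratio r N y hy a b ha hab, ?_⟩
  have hfp : 0 ≤ firstProb r y := by unfold firstProb; positivity
  have main : ∀ k : ℕ, k ≤ N → cdf (Om r N) y k ≤ firstProb r y * ((n : ℝ) / N * k) + e := by
    intro k hk
    have h := transfer _ _ (OmI_subset r N) hI e 1 hτ
      (fun f : Fin n → ℤ => if f y < (k : ℤ) then (1 : ℝ) else 0)
      (fun f _ => by positivity) (fun f _ => by split_ifs <;> norm_num)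
    have h2 := (abs_le.1 h).2
    have e1 : cdf (Om r N) y k =
        av (Om r N) (fun f : Fin n → ℤ => if f y < (k : ℤ) then (1 : ℝ) else 0) := by
      unfold cdf
      rw [pr_eq_av]
      apply av_congr
      intro f _
      by_cases h : f y < (k : ℤ) <;> simp [h]
    have e2 : cdf (OmI r N) y k =
        av (OmI r N) (fun f : Fin n → ℤ => if f y < (k : ℤ) then (1 : ℝ) else 0) := by
      unfold cdf
      rw [pr_eq_av]
      apply av_congr
      intro f _
      by_cases h : f y < (k : ℤ) <;> simp [h]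
    rw [← e1, ← e2] at h2
    have h3 := pr_first_OmI r N hI y hy k
    rw [av1 r hn N hI k hk hnN] at h3
    linarith
  intro u hu
  obtain ⟨k, rfl⟩ := Int.eq_ofNat_of_zero_le hu
  rcases le_total k N with hk | hk
  · have := main k hk
    push_cast
    exact this
  · have h1 := main N le_rfl
    have h2 : cdf (Om r N) y k ≤ cdf (Om r N) y N := by
      unfold cdf pr
      apply div_le_div_of_nonneg_right _ (by positivity)
      rw [Nat.cast_le]
      apply card_le_card
      intro f hf
      have hf' := @Finset.mem_filter _ (fun f : Fin n → ℤ => f y < (k : ℤ)) (fun _ => Classical.propDecidable _) (Om r N) f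
      have hg' := @Finset.mem_filter _ (fun f : Fin n → ℤ => f y < (N : ℤ)) (fun _ => Classical.propDecidable _) (Om r N) f
      have h1 := hf'.1 hf
      exact hg'.2 ⟨h1.1, (om_range r N f h1.1 y).2⟩
    have h3 : (N : ℝ) ≤ k := by exact_mod_cast hk
    have h4 : firstProb r y * ((n : ℝ) / N * N) ≤ firstProb r y * ((n : ℝ) / N * k) := by
      apply mul_le_mul_of_nonneg_left _ hfp
      exact mul_le_mul_of_nonneg_left h3 (by positivity)
    push_cast
    linarith

end Pool.Agent.Helper17.KSLink
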