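import Mathlib

set_option autoImplicit false

/-!
Kneser type theorem for subspaces of the algebra of functions on a finite set.
-/

namespace Pool.Agent.Helper17.KneserFun

open Module

variable {ι : Type*} [Fintype ι]

/-- a function is good (invertible) when it has no zero -/
def Good (a : ι → ℂ) : Prop := ∀ i, a i ≠ 0

/-- a common non-vanishing vector for finitely many non-zero quadratic forms -/
theorem exists_nonvanishing {E : Type*} [AddCommGroup E] [Module ℂ E]
    (s : Finset (E →ₗ[ℂ] E →ₗ[ℂ] ℂ)) (hs : ∀ B ∈ s, ∃ v, B v v ≠ 0) :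
    ∃ v, ∀ B ∈ s, B v v ≠ 0 := by
  classical
  induction s using Finset.induction_on with
  | empty => exact ⟨0, by simp⟩
  | insert B s hB ih =>
    obtain ⟨v1, h1⟩ := ih (fun C hC => hs C (Finset.mem_insert_of_mem hC))
    obtain ⟨v2, h2⟩ := hs B (Finset.mem_insert_self _ _)
    -- polynomial C ↦ C(v1 + t v2, v1 + t v2)
    let P : (E →ₗ[ℂ] E →ₗ[ℂ] ℂ) → Polynomial ℂ := fun C =>
      Polynomial.C (C v1 v1) + Polynomial.C (C v1 v2 + C v2 v1) * Polynomial.X
        + Polynomial.C (C v2 v2) * Polynomial.X ^ 2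
    have hev : ∀ C t, (P C).eval t = C (v1 + t • v2) (v1 + t • v2) := by
      intro C t
      simp only [P, Polynomial.eval_add, Polynomial.eval_mul, Polynomial.eval_C,
        Polynomial.eval_X, Polynomial.eval_pow, map_add, map_smul, LinearMap.add_apply,
        LinearMap.smul_apply, smul_eq_mul]
      ring
    have hne : ∀ C ∈ insert B s, P C ≠ 0 := by
      intro C hC h0
      rcases Finset.mem_insert.1 hC with rfl | hC'
      · have : (P C).coeff 2 = 0 := by rw [h0]; simp
        simp only [P, Polynomial.coeff_add, Polynomial.coeff_C_mul, Polynomial.coeff_X_pow,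
          Polynomial.coeff_C, Polynomial.coeff_X] at this
        norm_num at this
        exact h2 this
      · have : (P C).eval 0 = 0 := by rw [h0]; simp
        rw [hev] at this
        simp at this
        exact h1 C hC' this
    have hprod : (∏ C ∈ insert B s, P C) ≠ 0 := Finset.prod_ne_zero_iff.2 hne
    obtain ⟨t, ht⟩ : ∃ t : ℂ, (∏ C ∈ insert B s, P C).eval t ≠ 0 := by
      by_contra hcon
      push Not at hcon
      exact hprod (Polynomial.funext (by intro t; simpa using hcon t))
    refine ⟨v1 + t • v2, fun C hC => ?_⟩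
    rw [Polynomial.eval_prod, Finset.prod_ne_zero_iff] at ht
    rw [← hev]
    exact ht C hC

/-- every element of `V` is a difference of good elements of `V` -/
theorem exists_good_decomp (V : Submodule ℂ (ι → ℂ)) (a : ι → ℂ) (ha : a ∈ V) (hg : Good a)
    (v : ι → ℂ) (hv : v ∈ V) :
    ∃ e ∈ V, Good e ∧ ∃ t : ℂ, v = e - t • a := by
  classical
  obtain ⟨t, ht⟩ : ∃ t : ℂ, ∀ i, v i + t * a i ≠ 0 := by
    obtain ⟨t, ht⟩ := Infinite.exists_notMem_finset (Finset.univ.image (fun i => - v i / a i))
    refine ⟨t, fun i h => ht ?_⟩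
    simp only [Finset.mem_image, Finset.mem_univ, true_and]
    refine ⟨i, ?_⟩
    have := hg i
    field_simp
    linear_combination -h
  refine ⟨v + t • a, V.add_mem hv (V.smul_mem t ha), ?_, t, by simp⟩
  intro i
  simpa using ht i

/-- transformation lemma -/
theorem transform (V W : Submodule ℂ (ι → ℂ)) (a : ι → ℂ) (ha : a ∈ V) (hg : Good a)
    (h1 : (1 : ι → ℂ) ∈ W) :
    ∃ (V' : Submodule ℂ (ι → ℂ)) (H : Subalgebra ℂ (ι → ℂ)), a ∈ V' ∧ V' ≤ V * W ∧
      (∀ h ∈ H, ∀ v ∈ V', h * v ∈ V') ∧
      finrank ℂ V + finrank ℂ W ≤ finrank ℂ V' + finrank ℂ H := by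
  classical
  let P : ℕ → Prop := fun k => ∃ V' W' : Submodule ℂ (ι → ℂ), a ∈ V' ∧ (1 : ι → ℂ) ∈ W' ∧
    V' * W' ≤ V * W ∧ finrank ℂ V + finrank ℂ W ≤ finrank ℂ V' + finrank ℂ W' ∧
    finrank ℂ W' = k
  have hP : ∃ k, P k := ⟨_, V, W, ha, h1, le_refl _, le_refl _, rfl⟩
  obtain ⟨V', W', haV, h1W, hVW, hdim, hk⟩ := Nat.find_spec hP
  have hmin : ∀ V'' W'' : Submodule ℂ (ι → ℂ), a ∈ V'' → (1 : ι → ℂ) ∈ W'' →
    V'' * W'' ≤ V * W → finrank ℂ V + finrank ℂ W ≤ finrank ℂ V'' + finrank ℂ W'' →
    finrank ℂ W' ≤ finrank ℂ W'' := by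
    intro V'' W'' a1 a2 a3 a4
    rw [hk]
    exact Nat.find_min' hP ⟨V'', W'', a1, a2, a3, a4, rfl⟩
  -- the key closure property
  have key : ∀ e ∈ V', Good e → ∀ w ∈ W', e * w ∈ V' := by
    intro e he hge w hw
    let m : (ι → ℂ) →ₗ[ℂ] (ι → ℂ) := LinearMap.mulLeft ℂ e
    have hminj : Function.Injective m := by
      intro x y hxy
      funext i
      have := congrFun hxy i
      simp only [m, LinearMap.mulLeft_apply, Pi.mul_apply] at this
      exact mul_left_cancel₀ (hge i) this
    let W'' : Submodule ℂ (ι → ℂ) := W' ⊓ V'.comap m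
    let V'' : Submodule ℂ (ι → ℂ) := V' ⊔ W'.map m
    have hmap : W''.map m = W'.map m ⊓ V' := by
      ext x
      simp only [W'', Submodule.mem_map, Submodule.mem_inf, Submodule.mem_comap]
      constructor
      · rintro ⟨y, ⟨hy1, hy2⟩, rfl⟩
        exact ⟨⟨y, hy1, rfl⟩, hy2⟩
      · rintro ⟨⟨y, hy1, rfl⟩, hy2⟩
        exact ⟨y, ⟨hy1, hy2⟩, rfl⟩
    have hd1 : finrank ℂ (W'.map m) = finrank ℂ W' :=
      (LinearEquiv.finrank_eq (Submodule.equivMapOfInjective m hminj W')).symm
    have hd2 : finrank ℂ (W''.map m) = finrank ℂ W'' :=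
      (LinearEquiv.finrank_eq (Submodule.equivMapOfInjective m hminj W'')).symm
    have hsum : finrank ℂ V'' + finrank ℂ W'' = finrank ℂ V' + finrank ℂ W' := by
      have := Submodule.finrank_sup_add_finrank_inf_eq V' (W'.map m)
      rw [← hd2, hmap, inf_comm, ← hd1]
      exact this
    have hle : finrank ℂ W' ≤ finrank ℂ W'' := by
      refine hmin V'' W'' (Submodule.mem_sup_left haV) ⟨h1W, ?_⟩ ?_ ?_
      · simp only [m, Submodule.mem_comap, LinearMap.mulLeft_apply, mul_one, he,
          SetLike.mem_coe]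
      · rw [Submodule.sup_mul, sup_le_iff]
        constructor
        · refine le_trans ?_ hVW
          rw [Submodule.mul_le]
          intro x hx y hy
          exact Submodule.mul_mem_mul hx hy.1
        · rw [Submodule.mul_le]
          rintro _ ⟨y, hy, rfl⟩ n ⟨hn1, hn2⟩
          have : m y * n = (e * n) * y := by
            simp only [m, LinearMap.mulLeft_apply]; ring
          rw [this]
          exact hVW (Submodule.mul_mem_mul hn2 hy)
      · rw [hsum]; exact hdim
    have heq : W'' = W' := Submodule.eq_of_le_of_finrank_le inf_le_left hle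
    have : w ∈ W'' := by rw [heq]; exact hw
    exact this.2
  have key2 : ∀ v ∈ V', ∀ w ∈ W', v * w ∈ V' := by
    intro v hv w hw
    obtain ⟨e, he, hge, t, rfl⟩ := exists_good_decomp V' a haV hg v hv
    rw [sub_mul, smul_mul_assoc]
    exact V'.sub_mem (key e he hge w hw) (V'.smul_mem t (key a haV hg w hw))
  refine ⟨V', Algebra.adjoin ℂ (W' : Set (ι → ℂ)), haV, ?_, ?_, ?_⟩
  · intro v hv
    have := Submodule.mul_mem_mul hv h1W
    rw [mul_one] at this
    exact hVW this
  · intro h hh
    induction hh using Algebra.adjoin_induction with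
    | mem x hx => intro v hv; rw [mul_comm]; exact key2 v hv x hx
    | algebraMap r => intro v hv; rw [← Algebra.smul_def]; exact V'.smul_mem r hv
    | add x y _ _ hx hy => intro v hv; rw [add_mul]; exact V'.add_mem (hx v hv) (hy v hv)
    | mul x y _ _ hx hy => intro v hv; rw [mul_assoc]; exact hx _ (hy v hv)
  · refine le_trans hdim (Nat.add_le_add_left ?_ _)
    have : W' ≤ Subalgebra.toSubmodule (Algebra.adjoin ℂ (W' : Set (ι → ℂ))) := by
      intro x hx
      exact Algebra.subset_adjoin hx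
    exact Submodule.finrank_mono this

/-- class indicators lie in the subalgebra -/
theorem exists_indicator (H : Subalgebra ℂ (ι → ℂ)) (i : ι) :
    ∃ e ∈ H, (∀ k, (∀ h ∈ H, h i = h k) → e k = 1) ∧ (∀ k, (¬ ∀ h ∈ H, h i = h k) → e k = 0) := by
  classical
  -- for each j not in the class of i choose a separating element
  have hsep : ∀ j : ι, ∃ g ∈ H, (∀ k, (∀ h ∈ H, h i = h k) → g k = 1) ∧
      ((¬ ∀ h ∈ H, h i = h j) → g j = 0) := by
    intro j
    by_cases hj : ∀ h ∈ H, h i = h j
    · exact ⟨1, H.one_mem, fun _ _ => rfl, fun hn => absurd hj hn⟩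
    · push Not at hj
      obtain ⟨h, hh, hne⟩ := hj
      have hne' : h i - h j ≠ 0 := sub_ne_zero.2 hne
      refine ⟨(h i - h j)⁻¹ • (h - (h j) • (1 : ι → ℂ)),
        H.smul_mem (H.sub_mem hh (H.smul_mem H.one_mem _)) _, ?_, ?_⟩
      · intro k hk
        simp only [Pi.smul_apply, Pi.sub_apply, Pi.one_apply, smul_eq_mul, mul_one]
        rw [← hk h hh]
        exact inv_mul_cancel₀ hne'
      · intro _
        simp
  choose g hgH hg1 hg0 using hsep
  refine ⟨∏ j, g j, H.prod_mem (fun j _ => hgH j), ?_, ?_⟩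
  · intro k hk
    rw [Finset.prod_apply]
    exact Finset.prod_eq_one (fun j _ => hg1 j k hk)
  · intro k hk
    rw [Finset.prod_apply]
    exact Finset.prod_eq_zero (Finset.mem_univ k) (hg0 k hk)

/-- a subalgebra is determined by its classes -/
theorem mem_of_const (H : Subalgebra ℂ (ι → ℂ)) (f : ι → ℂ)
    (hf : ∀ i k, (∀ h ∈ H, h i = h k) → f i = f k) : f ∈ H := by
  classical
  choose e heH he1 he0 using exists_indicator H
  let c : ι → ℂ := fun i => ((Finset.univ.filter (fun k => ∀ h ∈ H, h i = h k)).card : ℂ)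
  have hc : ∀ i, c i ≠ 0 := by
    intro i
    have : (Finset.univ.filter (fun k => ∀ h ∈ H, h i = h k)).card ≠ 0 := by
      rw [Finset.card_ne_zero]
      exact ⟨i, by simp⟩
    exact Nat.cast_ne_zero.2 this
  have hcc : ∀ i k, (∀ h ∈ H, h i = h k) → c i = c k := by
    intro i k hik
    simp only [c]
    congr 2
    ext l
    simp only [Finset.mem_filter, Finset.mem_univ, true_and]
    constructor
    · intro hl h hh; rw [← hik h hh]; exact hl h hh
    · intro hl h hh; rw [hik h hh]; exact hl h hh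
  have : f = ∑ i, ((c i)⁻¹ * f i) • e i := by
    funext k
    rw [Finset.sum_apply]
    simp only [Pi.smul_apply, smul_eq_mul]
    have h1 : ∀ i, (c i)⁻¹ * f i * e i k
        = if (∀ h ∈ H, h k = h i) then (c k)⁻¹ * f k else 0 := by
      intro i
      split_ifs with h
      · have h' : ∀ h ∈ H, h i = h k := fun g hg => (h g hg).symm
        rw [he1 i k h', hcc i k h', hf i k h', mul_one]
      · rw [he0 i k (fun h' => h (fun g hg => (h' g hg).symm)), mul_zero]
    rw [Finset.sum_congr rfl (fun i _ => h1 i), ← Finset.sum_filter, Finset.sum_const,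
      nsmul_eq_mul, ← mul_assoc]
    change f k = c k * (c k)⁻¹ * f k
    rw [mul_inv_cancel₀ (hc k), one_mul]
  rw [this]
  exact H.sum_mem (fun i _ => H.smul_mem (heH i) _)

instance finite_subalgebra : Finite (Subalgebra ℂ (ι → ℂ)) := by
  classical
  let r : Subalgebra ℂ (ι → ℂ) → Set (ι × ι) := fun H => {p | ∀ h ∈ H, h p.1 = h p.2}
  refine Finite.of_injective r ?_
  intro H K hHK
  have h1 : ∀ i k, (∀ h ∈ H, h i = h k) ↔ (∀ h ∈ K, h i = h k) := by
    intro i k
    have := Set.ext_iff.1 hHK (i, k)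
    exact this
  apply le_antisymm
  · intro f hf
    exact mem_of_const K f (fun i k hik => ((h1 i k).2 hik) f hf)
  · intro f hf
    exact mem_of_const H f (fun i k hik => ((h1 i k).1 hik) f hf)

/-- Kneser type theorem for squares: a subalgebra stabilising `V * V` with a dimension bound -/
theorem kneser_sq [Nonempty ι] (V : Submodule ℂ (ι → ℂ)) (h1 : (1 : ι → ℂ) ∈ V) :
    ∃ H : Subalgebra ℂ (ι → ℂ), (∀ h ∈ H, ∀ y ∈ V * V, h * y ∈ V * V) ∧
      2 * finrank ℂ V ≤ finrank ℂ (V * V : Submodule ℂ (ι → ℂ)) + finrank ℂ H := by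
  classical
  -- for every good a in V a stable subspace containing a^2
  have hY : ∀ a : ι → ℂ, a ∈ V → Good a → ∃ (Y : Submodule ℂ (ι → ℂ))
      (H : Subalgebra ℂ (ι → ℂ)), a * a ∈ Y ∧ Y ≤ V * V ∧ (∀ h ∈ H, ∀ y ∈ Y, h * y ∈ Y) ∧
      2 * finrank ℂ V ≤ finrank ℂ Y + finrank ℂ H := by
    intro a ha hg
    let b : ι → ℂ := fun i => (a i)⁻¹
    have hab : b * a = 1 := by
      funext i; simp [b, inv_mul_cancel₀ (hg i)]
    have hab' : a * b = 1 := by rw [mul_comm]; exact hab
    let mb : (ι → ℂ) →ₗ[ℂ] (ι → ℂ) := LinearMap.mulLeft ℂ b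
    let ma : (ι → ℂ) →ₗ[ℂ] (ι → ℂ) := LinearMap.mulLeft ℂ a
    have hmb : Function.Injective mb := by
      intro x y hxy
      have h : a * (b * x) = a * (b * y) := congrArg (fun z => a * z) hxy
      rwa [← mul_assoc, ← mul_assoc, hab', one_mul, one_mul] at h
    have hma : Function.Injective ma := by
      intro x y hxy
      have h : b * (a * x) = b * (a * y) := congrArg (fun z => b * z) hxy
      rwa [← mul_assoc, ← mul_assoc, hab, one_mul, one_mul] at h
    obtain ⟨V', H, haV, hVW, hst, hdim⟩ := transform V (V.map mb) a ha hg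
      ⟨a, ha, by simpa [mb] using hab⟩
    refine ⟨V'.map ma, H, ⟨a, haV, by simp [ma]⟩, ?_, ?_, ?_⟩
    · rintro _ ⟨x, hx, rfl⟩
      have hx' := hVW hx
      change a * x ∈ V * V
      refine Submodule.mul_induction_on hx' ?_ ?_
      · rintro v hv _ ⟨w, hw, rfl⟩
        have : a * (v * mb w) = v * w := by
          simp only [mb, LinearMap.mulLeft_apply]
          calc a * (v * (b * w)) = (a * b) * (v * w) := by ring
            _ = v * w := by rw [hab', one_mul]
        rw [this]
        exact Submodule.mul_mem_mul hv hw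
      · intro x y hx hy
        rw [mul_add]
        exact Submodule.add_mem _ hx hy
    · rintro h hh _ ⟨x, hx, rfl⟩
      refine ⟨h * x, hst h hh x hx, ?_⟩
      simp only [ma, LinearMap.mulLeft_apply]
      ring
    · have e1 : finrank ℂ (V'.map ma) = finrank ℂ V' :=
        (LinearEquiv.finrank_eq (Submodule.equivMapOfInjective ma hma V')).symm
      have e2 : finrank ℂ (V.map mb) = finrank ℂ V :=
        (LinearEquiv.finrank_eq (Submodule.equivMapOfInjective mb hmb V)).symm
      rw [e2] at hdim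
      rw [e1]
      omega
  choose Y H haY hYV hst hdim using hY
  -- colour classes
  let S : Subalgebra ℂ (ι → ℂ) → Submodule ℂ (ι → ℂ) := fun K =>
    Submodule.span ℂ {x | ∃ (a : ι → ℂ) (ha : a ∈ V) (hg : Good a), H a ha hg = K ∧ x = a * a}
  by_cases hex : ∃ K, V * V ≤ S K
  · obtain ⟨K, hK⟩ := hex
    have hne : ∃ (a : ι → ℂ) (ha : a ∈ V) (hg : Good a), H a ha hg = K := by
      by_contra hcon
      push Not at hcon
      have : S K = ⊥ := by
        rw [Submodule.span_eq_bot]
        rintro x ⟨a, ha, hg, hk, -⟩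
        exact absurd hk (hcon a ha hg)
      rw [this] at hK
      have h11 : (1 : ι → ℂ) * 1 ∈ V * V := Submodule.mul_mem_mul h1 h1
      have := hK h11
      rw [Submodule.mem_bot, mul_one] at this
      exact one_ne_zero this
    refine ⟨K, ?_, ?_⟩
    · intro h hh y hy
      have hy' := hK hy
      refine Submodule.span_induction ?_ ?_ ?_ ?_ hy'
      · rintro x ⟨a, ha, hg, hk, rfl⟩
        subst hk
        exact hYV a ha hg (hst a ha hg h hh _ (haY a ha hg))
      · rw [mul_zero]; exact Submodule.zero_mem _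
      · intro x z _ _ hx hz
        rw [mul_add]; exact Submodule.add_mem _ hx hz
      · intro c x _ hx
        rw [mul_smul_comm]; exact Submodule.smul_mem _ c hx
    · obtain ⟨a, ha, hg, hk⟩ := hne
      have h2 := hdim a ha hg
      rw [hk] at h2
      exact le_trans h2 (Nat.add_le_add_right (Submodule.finrank_mono (hYV a ha hg)) _)
  · exfalso
    push Not at hex
    -- a functional for every subalgebra
    have hphi : ∀ K : Subalgebra ℂ (ι → ℂ), ∃ φ : (ι → ℂ) →ₗ[ℂ] ℂ,
        (∀ x ∈ S K, φ x = 0) ∧ ∃ v ∈ V, φ (v * v) ≠ 0 := by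
      intro K
      obtain ⟨x, hxV, hxS⟩ := Set.not_subset.1 (hex K)
      obtain ⟨φ, hφx, hφS⟩ := Submodule.exists_le_ker_of_notMem hxS
      refine ⟨φ, fun y hy => hφS hy, ?_⟩
      by_contra hcon
      push Not at hcon
      apply hφx
      have : V * V ≤ LinearMap.ker φ := by
        rw [Submodule.mul_le]
        intro v hv w hw
        have e1 := hcon (v + w) (V.add_mem hv hw)
        have e2 := hcon v hv
        have e3 := hcon w hw
        have : (v + w) * (v + w) = v * v + w * w + (2 : ℂ) • (v * w) := by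
          rw [two_smul]; ring
        rw [this, map_add, map_add, e2, e3, map_smul, zero_add, zero_add, smul_eq_mul] at e1
        rw [LinearMap.mem_ker]
        rcases mul_eq_zero.1 e1 with h | h
        · norm_num at h
        · exact h
      exact this hxV
    choose φ hφS v hvV hφv using hphi
    let Bf : Subalgebra ℂ (ι → ℂ) → (V →ₗ[ℂ] V →ₗ[ℂ] ℂ) := fun K =>
      LinearMap.mk₂ ℂ (fun x y => φ K ((x : ι → ℂ) * (y : ι → ℂ)))
        (by intro x x' y; simp [add_mul]) (by intro c x y; simp)
        (by intro x y y'; simp [mul_add]) (by intro c x y; simp)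
    let Cf : ι → (V →ₗ[ℂ] V →ₗ[ℂ] ℂ) := fun i =>
      LinearMap.mk₂ ℂ (fun x y => (x : ι → ℂ) i * (y : ι → ℂ) i)
        (by intro x x' y; simp [add_mul]) (by intro c x y; simp [mul_assoc])
        (by intro x y y'; simp [mul_add]) (by intro c x y; simp [mul_left_comm])
    have : Fintype (Subalgebra ℂ (ι → ℂ)) := Fintype.ofFinite _
    obtain ⟨u, hu⟩ := exists_nonvanishing
      ((Finset.univ.image Bf) ∪ (Finset.univ.image Cf)) (by
        intro B hB
        rcases Finset.mem_union.1 hB with h | h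
        · obtain ⟨K, -, rfl⟩ := Finset.mem_image.1 h
          exact ⟨⟨v K, hvV K⟩, hφv K⟩
        · obtain ⟨i, -, rfl⟩ := Finset.mem_image.1 h
          exact ⟨⟨1, h1⟩, by simp [Cf]⟩)
    have hgu : Good (u : ι → ℂ) := by
      intro i h0
      refine hu (Cf i) (Finset.mem_union_right _ (Finset.mem_image_of_mem _ (Finset.mem_univ i))) ?_
      simp [Cf, h0]
    let K := H (u : ι → ℂ) u.2 hgu
    refine hu (Bf K) (Finset.mem_union_left _ (Finset.mem_image_of_mem _ (Finset.mem_univ K))) ?_
    change φ K ((u : ι → ℂ) * (u : ι → ℂ)) = 0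
    apply hφS K
    exact Submodule.subset_span ⟨u, u.2, hgu, rfl, rfl⟩

end Pool.Agent.Helper17.KneserFun
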