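import Mathlib

set_option autoImplicit false

/-!
Second and third order terms of the permanent at a special zero.
-/

namespace Pool.Agent.Helper17.PermExpand

open Equiv Polynomial

variable {κ : Type*} [Fintype κ] [DecidableEq κ]

/-- indicator of distinctness -/
noncomputable def D2 (i k : κ) : ℂ := if i = k then 0 else 1

/-- indicator of distinctness of three indices -/
noncomputable def D3 (i k p : κ) : ℂ := D2 i k * D2 i p * D2 k p

theorem sum_D2 (a b : κ → ℂ) :
    ∑ i, ∑ k, D2 i k * (a i * b k) = (∑ i, a i) * (∑ k, b k) - ∑ i, a i * b i := by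
  have h : ∀ i k, D2 i k * (a i * b k) = a i * b k - (if i = k then a i * b k else 0) := by
    intro i k
    unfold D2
    split_ifs <;> ring
  simp only [h, Finset.sum_sub_distrib, Finset.sum_ite_eq, Finset.mem_univ, if_true]
  rw [Finset.sum_mul_sum]

theorem sum_D3 (a b c : κ → ℂ) :
    ∑ i, ∑ k, ∑ p, D3 i k p * (a i * b k * c p)
      = (∑ i, a i) * (∑ i, b i) * (∑ i, c i) - (∑ i, a i * b i) * (∑ i, c i)
        - (∑ i, a i * c i) * (∑ i, b i) - (∑ i, b i * c i) * (∑ i, a i)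
        + 2 * ∑ i, a i * b i * c i := by
  have h : ∀ i k p, D3 i k p * (a i * b k * c p) = a i * b k * c p
      - (if i = k then a i * b k * c p else 0) - (if i = p then a i * b k * c p else 0)
      - (if k = p then a i * b k * c p else 0)
      + ((if i = k then (if k = p then a i * b k * c p else 0) else 0)
        + (if i = k then (if k = p then a i * b k * c p else 0) else 0)) := by
    intro i k p
    unfold D3 D2
    by_cases h1 : i = k
    · subst h1
      by_cases h2 : i = p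
      · subst h2; simp
      · simp [h2]
    · by_cases h2 : i = p
      · subst h2
        have h3 : ¬ k = i := fun h => h1 h.symm
        simp [h1, h3]
      · by_cases h3 : k = p
        · simp [h2, h3]
        · simp [h1, h2, h3]
  have e1 : ∑ i, ∑ k, ∑ p, a i * b k * c p = (∑ i, a i) * (∑ i, b i) * (∑ i, c i) := by
    rw [Finset.sum_mul_sum, Finset.sum_mul]
    refine Finset.sum_congr rfl (fun i _ => ?_)
    rw [Finset.sum_mul]
    refine Finset.sum_congr rfl (fun k _ => ?_)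
    rw [Finset.mul_sum]
  have e2 : ∑ i, ∑ k, ∑ p, (if i = k then a i * b k * c p else 0)
      = (∑ i, a i * b i) * (∑ i, c i) := by
    have : ∀ i, ∑ k, ∑ p, (if i = k then a i * b k * c p else 0) = a i * b i * ∑ p, c p := by
      intro i
      rw [Finset.sum_eq_single i]
      · simp [Finset.mul_sum]
      · intro k _ hk
        simp [Ne.symm hk]
      · intro hi; exact absurd (Finset.mem_univ i) hi
    rw [Finset.sum_congr rfl (fun i _ => this i), Finset.sum_mul]
  have e3 : ∑ i, ∑ k, ∑ p, (if i = p then a i * b k * c p else 0)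
      = (∑ i, a i * c i) * (∑ i, b i) := by
    have : ∀ i k, ∑ p, (if i = p then a i * b k * c p else 0) = a i * c i * b k := by
      intro i k
      rw [Finset.sum_eq_single i]
      · simp; ring
      · intro p _ hp
        simp [Ne.symm hp]
      · intro hi; exact absurd (Finset.mem_univ i) hi
    simp only [this]
    rw [Finset.sum_mul_sum]
  have e4 : ∑ i, ∑ k, ∑ p, (if k = p then a i * b k * c p else 0)
      = (∑ i, b i * c i) * (∑ i, a i) := by
    have : ∀ i k, ∑ p, (if k = p then a i * b k * c p else 0) = a i * (b k * c k) := by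
      intro i k
      rw [Finset.sum_eq_single k]
      · simp; ring
      · intro p _ hp
        simp [Ne.symm hp]
      · intro hi; exact absurd (Finset.mem_univ k) hi
    simp only [this]
    rw [← Finset.sum_mul_sum, mul_comm]
  have e5 : ∑ i, ∑ k, ∑ p, (if i = k then (if k = p then a i * b k * c p else 0) else 0)
      = ∑ i, a i * b i * c i := by
    refine Finset.sum_congr rfl (fun i _ => ?_)
    rw [Finset.sum_eq_single i]
    · rw [Finset.sum_eq_single i]
      · simp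
      · intro p _ hp
        simp [Ne.symm hp]
      · intro hi; exact absurd (Finset.mem_univ i) hi
    · intro k _ hk
      simp [Ne.symm hk]
    · intro hi; exact absurd (Finset.mem_univ i) hi
  simp only [h, Finset.sum_add_distrib, Finset.sum_sub_distrib]
  rw [e1, e2, e3, e4, e5]
  ring

/-- averaging over all permutations -/
theorem orbit_sum {Ω : Type*} [Fintype Ω] (a : Perm κ → (Ω ≃ Ω))
    (ha : ∀ τ ρ y, a (τ * ρ) y = a τ (a ρ y)) (d f : Ω → ℂ) (hd : ∀ τ y, d (a τ y) = d y)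
    (x : Ω) (hx : ∀ y, d y ≠ 0 → ∃ ρ, a ρ x = y) :
    (∑ y, d y) * ∑ τ : Perm κ, f (a τ x)
      = (Fintype.card (Perm κ) : ℂ) * ∑ y, d y * f y := by
  have h1 : (∑ y, d y) * ∑ τ : Perm κ, f (a τ x) = ∑ y, ∑ τ : Perm κ, d y * f (a τ y) := by
    rw [Finset.sum_mul]
    refine Finset.sum_congr rfl (fun y _ => ?_)
    rw [← Finset.mul_sum]
    by_cases h : d y = 0
    · rw [h]; simp
    · obtain ⟨ρ, rfl⟩ := hx y h
      congr 1
      refine (Fintype.sum_equiv (Equiv.mulRight ρ) _ _ (fun τ => ?_)).symm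
      rw [Equiv.coe_mulRight, ha]
  rw [h1, Finset.sum_comm]
  have h2 : ∀ τ : Perm κ, ∑ y, d y * f (a τ y) = ∑ y, d y * f y := by
    intro τ
    refine Fintype.sum_equiv (a τ) _ _ (fun y => ?_)
    rw [hd]
  rw [Finset.sum_congr rfl (fun τ _ => h2 τ), Finset.sum_const, Finset.card_univ, nsmul_eq_mul]

theorem perm_sum2 (f : κ → κ → ℂ) (i k : κ) (hik : D2 i k ≠ 0) :
    (∑ j : κ, ∑ l : κ, D2 j l) * ∑ τ : Perm κ, f (τ i) (τ k)
      = (Fintype.card (Perm κ) : ℂ) * ∑ j, ∑ l, D2 j l * f j l := by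
  have hne : i ≠ k := by intro h; apply hik; simp [D2, h]
  have := orbit_sum (Ω := κ × κ) (fun τ => Equiv.prodCongr τ τ) (fun τ ρ y => rfl)
    (fun y => D2 y.1 y.2) (fun y => f y.1 y.2)
    (by intro τ y; simp [D2]) (i, k) (by
      rintro ⟨j, l⟩ h
      have hjl : j ≠ l := by intro h'; apply h; simp [D2, h']
      obtain ⟨ρ, hρ⟩ := Equiv.Perm.exists_extending_pair ![i, k] ![j, l]
        (by intro x y; fin_cases x <;> fin_cases y <;> simp [hne, hne.symm])
        (by intro x y; fin_cases x <;> fin_cases y <;> simp [hjl, hjl.symm])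
      have h0 : ρ i = j := hρ 0
      have h1 : ρ k = l := hρ 1
      exact ⟨ρ, by simp [h0, h1]⟩)
  simpa [Fintype.sum_prod_type] using this

theorem perm_sum3 (f : κ → κ → κ → ℂ) (i k p : κ) (hik : D3 i k p ≠ 0) :
    (∑ j : κ, ∑ l : κ, ∑ q : κ, D3 j l q) * ∑ τ : Perm κ, f (τ i) (τ k) (τ p)
      = (Fintype.card (Perm κ) : ℂ) * ∑ j, ∑ l, ∑ q, D3 j l q * f j l q := by
  have key : ∀ j l q : κ, D3 j l q ≠ 0 → j ≠ l ∧ j ≠ q ∧ l ≠ q := by
    intro j l q h
    refine ⟨fun h' => h ?_, fun h' => h ?_, fun h' => h ?_⟩ <;> simp [D3, D2, h']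
  obtain ⟨n1, n2, n3⟩ := key i k p hik
  have := orbit_sum (Ω := κ × κ × κ) (fun τ => Equiv.prodCongr τ (Equiv.prodCongr τ τ))
    (fun τ ρ y => rfl)
    (fun y => D3 y.1 y.2.1 y.2.2) (fun y => f y.1 y.2.1 y.2.2)
    (by intro τ y; simp [D3, D2]) (i, k, p) (by
      rintro ⟨j, l, q⟩ h
      obtain ⟨m1, m2, m3⟩ := key j l q h
      obtain ⟨ρ, hρ⟩ := Equiv.Perm.exists_extending_pair ![i, k, p] ![j, l, q]
        (by intro x y; fin_cases x <;> fin_cases y <;>
              simp [n1, n2, n3, n1.symm, n2.symm, n3.symm])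
        (by intro x y; fin_cases x <;> fin_cases y <;>
              simp [m1, m2, m3, m1.symm, m2.symm, m3.symm])
      have h0 : ρ i = j := hρ 0
      have h1 : ρ k = l := hρ 1
      have h2 : ρ p = q := hρ 2
      exact ⟨ρ, by simp [h0, h1, h2]⟩)
  simpa [Fintype.sum_prod_type] using this

theorem swap2 {α β γ : Type*} [Fintype α] [Fintype β] [Fintype γ] (F : α → β → γ → ℂ) :
    ∑ a, ∑ b, ∑ c, F a b c = ∑ c, ∑ a, ∑ b, F a b c :=
  calc ∑ a, ∑ b, ∑ c, F a b c = ∑ a, ∑ c, ∑ b, F a b c :=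
        Finset.sum_congr rfl (fun _ _ => Finset.sum_comm)
    _ = ∑ c, ∑ a, ∑ b, F a b c := Finset.sum_comm

theorem swap3 {α β γ δ : Type*} [Fintype α] [Fintype β] [Fintype γ] [Fintype δ]
    (F : α → β → γ → δ → ℂ) :
    ∑ a, ∑ b, ∑ c, ∑ d, F a b c d = ∑ d, ∑ a, ∑ b, ∑ c, F a b c d :=
  calc ∑ a, ∑ b, ∑ c, ∑ d, F a b c d = ∑ a, ∑ d, ∑ b, ∑ c, F a b c d :=
        Finset.sum_congr rfl (fun a _ => swap2 (F a))
    _ = ∑ d, ∑ a, ∑ b, ∑ c, F a b c d := Finset.sum_comm

theorem card_perm_ne : (Fintype.card (Perm κ) : ℂ) ≠ 0 := by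
  exact_mod_cast Fintype.card_ne_zero

/-- second order sum for matrices with zero row and column sums -/
theorem second_sum (z : κ → κ → ℂ) (hr : ∀ i, ∑ j, z i j = 0) (hc : ∀ j, ∑ i, z i j = 0)
    (h : ∑ τ : Perm κ, ((∑ j, z (τ j) j) ^ 2 - ∑ j, z (τ j) j ^ 2) = 0) :
    ∑ i, ∑ j, z i j ^ 2 = 0 := by
  have h1 : ∀ τ : Perm κ, (∑ j, z (τ j) j) ^ 2 - ∑ j, z (τ j) j ^ 2
      = ∑ j, ∑ l, D2 j l * (z (τ j) j * z (τ l) l) := by
    intro τ
    rw [sum_D2 (fun j => z (τ j) j) (fun j => z (τ j) j)]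
    simp only [sq]
  rw [Finset.sum_congr rfl (fun τ _ => h1 τ),
    ← swap2 (fun j l (τ : Perm κ) => D2 j l * (z (τ j) j * z (τ l) l))] at h
  simp only [← Finset.mul_sum] at h
  have h3 : ∀ j l, (∑ j' : κ, ∑ l' : κ, D2 j' l') *
      (D2 j l * ∑ τ : Perm κ, (z (τ j) j * z (τ l) l))
      = (Fintype.card (Perm κ) : ℂ) * (D2 j l * ∑ i, -(z i j * z i l)) := by
    intro j l
    by_cases h0 : D2 j l = 0
    · rw [h0]; simp
    · have := perm_sum2 (fun x y => z x j * z y l) j l h0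
      rw [sum_D2 (fun x => z x j) (fun y => z y l), hc j] at this
      rw [mul_left_comm, this, Finset.sum_neg_distrib]
      ring
  have h4 : (∑ j' : κ, ∑ l' : κ, D2 j' l') *
      (∑ j, ∑ l, D2 j l * ∑ τ : Perm κ, (z (τ j) j * z (τ l) l))
      = (Fintype.card (Perm κ) : ℂ) * ∑ i, ∑ j, z i j ^ 2 := by
    have e1 : (∑ j' : κ, ∑ l' : κ, D2 j' l') *
        (∑ j, ∑ l, D2 j l * ∑ τ : Perm κ, (z (τ j) j * z (τ l) l))
        = ∑ j, ∑ l, (∑ j' : κ, ∑ l' : κ, D2 j' l') *
          (D2 j l * ∑ τ : Perm κ, (z (τ j) j * z (τ l) l)) := by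
      rw [Finset.mul_sum]
      exact Finset.sum_congr rfl (fun j _ => by rw [Finset.mul_sum])
    rw [e1, Finset.sum_congr rfl (fun j _ => Finset.sum_congr rfl (fun l _ => h3 j l))]
    simp only [← Finset.mul_sum]
    congr 1
    simp only [Finset.mul_sum]
    rw [swap2 (fun j l i => D2 j l * (-(z i j * z i l)))]
    refine Finset.sum_congr rfl (fun i _ => ?_)
    have e2 := sum_D2 (fun j => z i j) (fun l => - z i l)
    simp only [mul_neg, Finset.sum_neg_distrib] at e2 ⊢
    rw [hr i] at e2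
    rw [e2]
    simp [sq]
  rw [h, mul_zero] at h4
  rcases mul_eq_zero.1 h4.symm with h7 | h7
  · exact absurd h7 card_perm_ne
  · exact h7

/-- third order sum for matrices with zero row and column sums -/
theorem third_sum (z : κ → κ → ℂ) (hr : ∀ i, ∑ j, z i j = 0) (hc : ∀ j, ∑ i, z i j = 0)
    (h : ∑ τ : Perm κ, ((∑ j, z (τ j) j) ^ 3 - 3 * (∑ j, z (τ j) j) * (∑ j, z (τ j) j ^ 2)
      + 2 * ∑ j, z (τ j) j ^ 3) = 0) :
    ∑ i, ∑ j, z i j ^ 3 = 0 := by
  have h1 : ∀ τ : Perm κ, (∑ j, z (τ j) j) ^ 3 - 3 * (∑ j, z (τ j) j) * (∑ j, z (τ j) j ^ 2)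
      + 2 * ∑ j, z (τ j) j ^ 3
      = ∑ j, ∑ l, ∑ q, D3 j l q * (z (τ j) j * z (τ l) l * z (τ q) q) := by
    intro τ
    rw [sum_D3 (fun j => z (τ j) j) (fun j => z (τ j) j) (fun j => z (τ j) j)]
    have e1 : ∀ j, z (τ j) j * z (τ j) j = z (τ j) j ^ 2 := fun j => by ring
    have e2 : ∀ j, z (τ j) j * z (τ j) j * z (τ j) j = z (τ j) j ^ 3 := fun j => by ring
    simp only [e2]
    simp only [e1]
    ring
  rw [Finset.sum_congr rfl (fun τ _ => h1 τ),
    ← swap3 (fun j l q (τ : Perm κ) => D3 j l q * (z (τ j) j * z (τ l) l * z (τ q) q))] at h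
  simp only [← Finset.mul_sum] at h
  have h3 : ∀ j l q, (∑ j' : κ, ∑ l' : κ, ∑ q' : κ, D3 j' l' q') *
      (D3 j l q * ∑ τ : Perm κ, (z (τ j) j * z (τ l) l * z (τ q) q))
      = (Fintype.card (Perm κ) : ℂ) * (D3 j l q * ∑ i, 2 * (z i j * z i l * z i q)) := by
    intro j l q
    by_cases h0 : D3 j l q = 0
    · rw [h0]; simp
    · have := perm_sum3 (fun x y w => z x j * z y l * z w q) j l q h0
      rw [sum_D3 (fun x => z x j) (fun y => z y l) (fun w => z w q), hc j, hc l, hc q] at this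
      rw [mul_left_comm, this, ← Finset.mul_sum]
      ring
  have h4 : (∑ j' : κ, ∑ l' : κ, ∑ q' : κ, D3 j' l' q') *
      (∑ j, ∑ l, ∑ q, D3 j l q * ∑ τ : Perm κ, (z (τ j) j * z (τ l) l * z (τ q) q))
      = (Fintype.card (Perm κ) : ℂ) * ∑ i, ∑ j, 4 * z i j ^ 3 := by
    have e1 : (∑ j' : κ, ∑ l' : κ, ∑ q' : κ, D3 j' l' q') *
        (∑ j, ∑ l, ∑ q, D3 j l q * ∑ τ : Perm κ, (z (τ j) j * z (τ l) l * z (τ q) q))
        = ∑ j, ∑ l, ∑ q, (∑ j' : κ, ∑ l' : κ, ∑ q' : κ, D3 j' l' q') *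
          (D3 j l q * ∑ τ : Perm κ, (z (τ j) j * z (τ l) l * z (τ q) q)) := by
      rw [Finset.mul_sum]
      refine Finset.sum_congr rfl (fun j _ => ?_)
      rw [Finset.mul_sum]
      exact Finset.sum_congr rfl (fun j _ => by rw [Finset.mul_sum])
    rw [e1, Finset.sum_congr rfl (fun j _ => Finset.sum_congr rfl (fun l _ =>
      Finset.sum_congr rfl (fun q _ => h3 j l q)))]
    simp only [← Finset.mul_sum]
    congr 1
    simp only [Finset.mul_sum]
    rw [swap3 (fun j l q i => D3 j l q * (2 * (z i j * z i l * z i q)))]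
    refine Finset.sum_congr rfl (fun i _ => ?_)
    have e2 := sum_D3 (fun j => 2 * z i j) (fun l => z i l) (fun l => z i l)
    have e3 : ∀ j l q, D3 j l q * (2 * z i j * z i l * z i q)
        = D3 j l q * (2 * (z i j * z i l * z i q)) := fun j l q => by ring
    simp only [e3] at e2
    rw [e2, ← Finset.mul_sum, hr i, ← Finset.mul_sum]
    simp only [mul_zero, sub_zero, zero_add, Finset.mul_sum]
    refine Finset.sum_congr rfl (fun j _ => ?_)
    ring
  rw [h, mul_zero] at h4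
  rcases mul_eq_zero.1 h4.symm with h7 | h7
  · exact absurd h7 card_perm_ne
  · simp only [← Finset.mul_sum] at h7
    rcases mul_eq_zero.1 h7 with h8 | h8
    · norm_num at h8
    · exact h8

end Pool.Agent.Helper17.PermExpand
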